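import Mathlib

open Finset Real

namespace Pool.Agent.N891.WG

open Classical in
/-- ternary digits: the free positions are those satisfying `P` -/
noncomputable def DD (P : ℕ → Prop) (ω : ℕ → Fin 2) (m : ℕ) : Fin 3 :=
  if P m ∧ ω (Nat.count P m) = 1 then 2 else 0

/-- the point with digits `DD` -/
noncomputable def XX (P : ℕ → Prop) (ω : ℕ → Fin 2) : ℝ := Real.ofDigits (DD P ω)

lemma DD_of_not (P : ℕ → Prop) (ω : ℕ → Fin 2) (m : ℕ) (h : ¬ P m) : DD P ω m = 0 := by
  simp [DD, h]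

open Classical in
lemma sep_aux (P : ℕ → Prop) (C : ℕ) (hC : 0 < C) (h : ∀ m, P m → m + 1 ≤ C * (Nat.count P m + 1))
    (ω ω' : ℕ → Fin 2) (m : ℕ) (hP : P m) (hlt : ∀ i < Nat.count P m, ω i = ω' i)
    (h1 : ω (Nat.count P m) = 1) (h0 : ω' (Nat.count P m) = 0) :
    |Real.ofDigits ω - Real.ofDigits ω'| ≤ 2 * |XX P ω - XX P ω'| ^ ((1:ℝ) / (2 * C)) := by
  have hD : ∀ j < m, DD P ω j = DD P ω' j := by
    intro j hj
    by_cases hPj : P j
    · have := hlt (Nat.count P j) (Nat.count_strict_mono hPj hj)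
      simp [DD, hPj, this]
    · rw [DD_of_not _ _ _ hPj, DD_of_not _ _ _ hPj]
  have e1 : DD P ω m = 2 := by simp [DD, hP, h1]
  have e0 : DD P ω' m = 0 := by simp [DD, h0]
  have hlow : ((3:ℝ) ^ (m+1))⁻¹ ≤ |XX P ω - XX P ω'| := by
    unfold XX
    rw [Real.ofDigits_eq_sum_add_ofDigits (DD P ω) (m+1), Real.ofDigits_eq_sum_add_ofDigits (DD P ω') (m+1),
      Finset.sum_range_succ, Finset.sum_range_succ]
    have hs : ∑ i ∈ Finset.range m, ofDigitsTerm (DD P ω) i = ∑ i ∈ Finset.range m, ofDigitsTerm (DD P ω') i := by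
      apply Finset.sum_congr rfl
      intro i hi
      rw [Finset.mem_range] at hi
      simp [ofDigitsTerm, hD i hi]
    have t1 : ofDigitsTerm (DD P ω) m = 2 * ((3:ℝ) ^ (m+1))⁻¹ := by
      simp [ofDigitsTerm, e1]
    have t0 : ofDigitsTerm (DD P ω') m = 0 := by
      simp [ofDigitsTerm, e0]
    rw [hs, t1, t0]
    set u := Real.ofDigits (fun i => DD P ω (i + (m+1)))
    set v := Real.ofDigits (fun i => DD P ω' (i + (m+1)))
    have hu := Real.ofDigits_nonneg (fun i => DD P ω (i + (m+1)))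
    have hv := Real.ofDigits_le_one (fun i => DD P ω' (i + (m+1)))
    have hpos : (0:ℝ) < ((3:ℝ) ^ (m+1))⁻¹ := by positivity
    push_cast
    refine le_trans ?_ (le_abs_self _)
    nlinarith
  have hup : |Real.ofDigits ω - Real.ofDigits ω'| ≤ ((2:ℝ) ^ (Nat.count P m))⁻¹ := by
    have := Real.abs_ofDigits_sub_ofDigits_le hlt
    simpa using this
  have hm := h m hP
  set i := Nat.count P m
  have hCpos : (0:ℝ) < C := by exact_mod_cast hC
  have hpow : ((2:ℝ) ^ (i+1))⁻¹ ≤ |XX P ω - XX P ω'| ^ ((1:ℝ) / (2 * C)) := by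
    calc ((2:ℝ) ^ (i+1))⁻¹ ≤ (((3:ℝ) ^ (C * (i+1)))⁻¹) ^ ((1:ℝ) / (2 * C)) := by
          rw [Real.inv_rpow (by positivity)]
          apply inv_anti₀ (by positivity)
          rw [← Real.rpow_natCast, ← Real.rpow_mul (by norm_num)]
          have : (((C * (i+1) : ℕ) : ℝ)) * (1 / (2 * C)) = ((i+1 : ℕ) : ℝ) * (1/2) := by
            push_cast; field_simp
          rw [this, mul_comm, Real.rpow_mul (by norm_num), Real.rpow_natCast]
          apply pow_le_pow_left₀ (by positivity)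
          rw [← Real.sqrt_eq_rpow]
          rw [Real.sqrt_le_left (by norm_num)]
          norm_num
      _ ≤ (((3:ℝ) ^ (m+1))⁻¹) ^ ((1:ℝ) / (2 * C)) := by
          apply Real.rpow_le_rpow (by positivity) _ (by positivity)
          apply inv_anti₀ (by positivity)
          exact pow_le_pow_right₀ (by norm_num) hm
      _ ≤ _ := Real.rpow_le_rpow (by positivity) hlow (by positivity)
  calc _ ≤ _ := hup
    _ = 2 * ((2:ℝ) ^ (i+1))⁻¹ := by rw [pow_succ]; field_simp
    _ ≤ _ := by linarith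

open Classical in
lemma sep (P : ℕ → Prop) (hinf : (Set.ofPred P).Infinite) (C : ℕ) (hC : 0 < C)
    (h : ∀ m, P m → m + 1 ≤ C * (Nat.count P m + 1)) (ω ω' : ℕ → Fin 2) :
    |Real.ofDigits ω - Real.ofDigits ω'| ≤ 2 * |XX P ω - XX P ω'| ^ ((1:ℝ) / (2 * C)) := by
  by_cases heq : ω = ω'
  · subst heq
    rw [sub_self, abs_zero]; positivity
  have hex : ∃ i, ω i ≠ ω' i := Function.ne_iff.mp heq
  set i := Nat.find hex with hi
  have hspec : ω i ≠ ω' i := Nat.find_spec hex
  have hmin : ∀ j < i, ω j = ω' j := fun j hj => by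
    have := Nat.find_min hex hj
    simpa using this
  have hm : P (Nat.nth P i) := Nat.nth_mem_of_infinite hinf i
  have hc : Nat.count P (Nat.nth P i) = i := Nat.count_nth_of_infinite hinf i
  have hcases : (ω i = 1 ∧ ω' i = 0) ∨ (ω i = 0 ∧ ω' i = 1) := by
    generalize ω i = x at *
    generalize ω' i = y at *
    fin_cases x <;> fin_cases y <;> simp_all
  rcases hcases with ⟨a, b⟩ | ⟨a, b⟩
  · exact sep_aux P C hC h ω ω' (Nat.nth P i) hm (by rw [hc]; exact hmin) (by rw [hc]; exact a) (by rw [hc]; exact b)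
  · rw [abs_sub_comm, abs_sub_comm (XX P ω)]
    exact sep_aux P C hC h ω' ω (Nat.nth P i) hm (by rw [hc]; intro j hj; exact (hmin j hj).symm) (by rw [hc]; exact b) (by rw [hc]; exact a)

open Classical in
theorem dimH_range_pos (P : ℕ → Prop) (hinf : (Set.ofPred P).Infinite) (C : ℕ) (hC : 0 < C)
    (h : ∀ m, P m → m + 1 ≤ C * (Nat.count P m + 1)) : 0 < dimH (Set.range (XX P)) := by
  have hsep := sep P hinf C hC h
  set f : ℝ → ℝ := fun x => if hx : ∃ ω, XX P ω = x then Real.ofDigits (Classical.choose hx) else 0 with hf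
  have hfX : ∀ ω, f (XX P ω) = Real.ofDigits ω := by
    intro ω
    have hx : ∃ ω', XX P ω' = XX P ω := ⟨ω, rfl⟩
    have h1 : f (XX P ω) = Real.ofDigits (Classical.choose hx) := by
      simp only [hf]; rw [dif_pos hx]
    rw [h1]
    have h2 := Classical.choose_spec hx
    have h3 := hsep (Classical.choose hx) ω
    have hCpos : (0:ℝ) < C := by exact_mod_cast hC
    rw [h2, sub_self, abs_zero, Real.zero_rpow (by positivity)] at h3
    have h4 : |Real.ofDigits (Classical.choose hx) - Real.ofDigits ω| ≤ 0 := by linarith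
    have h5 := abs_nonpos_iff.mp h4
    linarith
  set r : NNReal := ⟨(1:ℝ) / (2 * C), by positivity⟩ with hr
  have hr0 : 0 < r := by
    have hCpos : (0:ℝ) < C := by exact_mod_cast hC
    have : (0:ℝ) < (1:ℝ) / (2 * C) := by positivity
    exact this
  have hH : HolderOnWith 2 r f (Set.range (XX P)) := by
    rintro x ⟨ω, rfl⟩ y ⟨ω', rfl⟩
    rw [hfX, hfX, edist_dist, edist_dist, Real.dist_eq, Real.dist_eq,
      ENNReal.ofReal_rpow_of_nonneg (abs_nonneg _) (by positivity)]
    have : ((2 : NNReal) : ENNReal) = ENNReal.ofReal 2 := by simp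
    rw [this, ← ENNReal.ofReal_mul (by norm_num)]
    apply ENNReal.ofReal_le_ofReal
    exact hsep ω ω'
  have h1 := hH.dimH_image_le hr0
  have h2 : (1:ENNReal) ≤ dimH (f '' Set.range (XX P)) := by
    have hsub : Set.Icc (0:ℝ) 1 ⊆ f '' Set.range (XX P) := by
      intro y hy
      obtain ⟨ω, _, hω⟩ := Real.ofDigits_SurjOn (b := 2) (by norm_num) hy
      exact ⟨XX P ω, ⟨ω, rfl⟩, by rw [hfX]; exact hω⟩
    have h3 := dimH_mono hsub
    have h4 : dimH (Set.Icc (0:ℝ) 1) = 1 := by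
      have := Real.dimH_of_nonempty_interior (E := ℝ) (s := Set.Icc (0:ℝ) 1) (by rw [interior_Icc]; exact ⟨1/2, by norm_num, by norm_num⟩)
      simpa using this
    rw [h4] at h3; exact h3
  rw [pos_iff_ne_zero]
  intro h0
  rw [h0] at h1
  have h5 := le_trans h2 h1
  simp at h5

end Pool.Agent.N891.WG
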