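import Mathlib

open Finset

namespace Pool.Agent.N891.WG

/-- `e t = exp (2 π i t)`. -/
noncomputable def e (t : ℝ) : ℂ := Complex.exp (2 * Real.pi * Complex.I * t)

lemma e_add (x y : ℝ) : e (x + y) = e x * e y := by
  simp [e, mul_add, Complex.exp_add]

lemma e_eq (x : ℝ) : e x = Complex.exp ((2 * Real.pi * x : ℝ) * Complex.I) := by
  simp only [e]; congr 1; push_cast; ring

lemma norm_e (x : ℝ) : ‖e x‖ = 1 := by
  rw [e_eq, Complex.norm_exp_ofReal_mul_I]

lemma e_int (n : ℤ) : e n = 1 := by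
  simp only [e]
  have : (2 * Real.pi * Complex.I * ((n:ℝ):ℂ)) = n * (2 * Real.pi * Complex.I) := by
    push_cast; ring
  rw [this, Complex.exp_int_mul_two_pi_mul_I]

lemma e_zero : e 0 = 1 := by simp [e]

lemma e_neg (x : ℝ) : e (-x) = (starRingEnd ℂ) (e x) := by
  rw [e_eq, e_eq, ← Complex.exp_conj]
  congr 1
  rw [map_mul, Complex.conj_I, Complex.conj_ofReal]
  push_cast; ring

lemma e_add_int (x : ℝ) (n : ℤ) : e (x + n) = e x := by
  rw [e_add, e_int, mul_one]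

/-- `|e t - 1| ≥ 4 |t|` for `|t| ≤ 1/2`. -/
lemma norm_e_sub_one (t : ℝ) (ht : |t| ≤ 1 / 2) : 4 * |t| ≤ ‖e t - 1‖ := by
  have h1 : e t = Complex.exp (Complex.I * ((2 * Real.pi * t : ℝ) : ℂ)) := by
    rw [e_eq]; congr 1; ring
  rw [h1, Complex.norm_exp_I_mul_ofReal_sub_one]
  have h2 : |Real.pi * t| ≤ Real.pi / 2 := by
    rw [abs_mul, abs_of_pos Real.pi_pos]
    nlinarith [Real.pi_pos]
  have h3 := Real.mul_abs_le_abs_sin h2
  have h4 : 2 * Real.pi * t / 2 = Real.pi * t := by ring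
  rw [h4, Real.norm_eq_abs, abs_mul]
  have h5 : 2 / Real.pi * |Real.pi * t| = 2 * |t| := by
    rw [abs_mul, abs_of_pos Real.pi_pos]
    field_simp
  rw [h5] at h3
  have : |(2:ℝ)| = 2 := by norm_num
  rw [this]; linarith

/-- upper bound `|e t - 1| ≤ 2 π |t|`. -/
lemma norm_e_sub_one_le (t : ℝ) : ‖e t - 1‖ ≤ 2 * Real.pi * |t| := by
  have h1 : e t = Complex.exp (Complex.I * ((2 * Real.pi * t : ℝ) : ℂ)) := by
    rw [e_eq]; congr 1; ring
  rw [h1, Complex.norm_exp_I_mul_ofReal_sub_one]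
  have h4 : 2 * Real.pi * t / 2 = Real.pi * t := by ring
  rw [h4, Real.norm_eq_abs, abs_mul]
  have : |(2:ℝ)| = 2 := by norm_num
  rw [this]
  have h3 : |Real.sin (Real.pi * t)| ≤ |Real.pi * t| := Real.abs_sin_le_abs
  rw [abs_mul, abs_of_pos Real.pi_pos] at h3
  nlinarith

lemma geo_trivial (θ : ℝ) (L : ℕ) : ‖∑ n ∈ range L, e (θ * n)‖ ≤ L := by
  calc ‖∑ n ∈ range L, e (θ * n)‖ ≤ ∑ n ∈ range L, ‖e (θ * n)‖ := norm_sum_le _ _
    _ = L := by simp [norm_e]

lemma geo_bound (θ : ℝ) (L : ℕ) (δ : ℝ) (hδ : 0 < δ) (n : ℤ) (h1 : δ ≤ |θ - n|)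
    (h2 : |θ - n| ≤ 1 / 2) : ‖∑ n ∈ range L, e (θ * n)‖ ≤ 1 / (2 * δ) := by
  have hne : e θ = e (θ - n) := by
    have := e_add_int (θ - n) n
    rw [← this]; congr 1; ring
  have hlow : 4 * δ ≤ ‖e θ - 1‖ := by
    rw [hne]
    have := norm_e_sub_one (θ - n) h2
    linarith
  have hpow : ∀ k : ℕ, e (θ * k) = (e θ) ^ k := by
    intro k
    induction k with
    | zero => simp [e_zero]
    | succ k ih => rw [pow_succ, ← ih, ← e_add]; congr 1; push_cast; ring
  have hgeo : (∑ n ∈ range L, e (θ * n)) * (e θ - 1) = (e θ) ^ L - 1 := by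
    simp_rw [hpow]
    exact geom_sum_mul _ _
  have hnum : ‖(e θ) ^ L - 1‖ ≤ 2 := by
    calc ‖(e θ) ^ L - 1‖ ≤ ‖(e θ) ^ L‖ + ‖(1:ℂ)‖ := norm_sub_le _ _
      _ = 2 := by rw [norm_pow, norm_e]; norm_num
  rw [← hgeo, norm_mul] at hnum
  rw [le_div_iff₀ (by positivity)]
  have hA := norm_nonneg (∑ n ∈ range L, e (θ * n))
  nlinarith

/-- the bucket weight -/
noncomputable def h1 (N M : ℕ) (i : ℕ) : ℝ := if i = 0 then (N : ℝ) else (M : ℝ) / (2 * i)

lemma h1_nonneg (N M i : ℕ) : 0 ≤ h1 N M i := by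
  unfold h1; split_ifs <;> positivity

/-- bucket of `θ` -/
noncomputable def bucket (M : ℕ) (θ : ℝ) : ℕ := ⌊(M : ℝ) * Int.fract θ⌋₊

lemma bucket_lt (M : ℕ) (hM : 0 < M) (θ : ℝ) : bucket M θ < M := by
  unfold bucket
  rw [Nat.floor_lt (by positivity)]
  have := Int.fract_lt_one θ
  have hM' : (0:ℝ) < M := by exact_mod_cast hM
  nlinarith

lemma bucket_le (M : ℕ) (hM : 0 < M) (θ : ℝ) : (bucket M θ : ℝ) / M ≤ Int.fract θ := by
  have hM' : (0:ℝ) < M := by exact_mod_cast hM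
  rw [div_le_iff₀ hM']
  have := Nat.floor_le (a := (M:ℝ) * Int.fract θ) (by positivity)
  unfold bucket; linarith

lemma lt_bucket (M : ℕ) (hM : 0 < M) (θ : ℝ) : Int.fract θ < ((bucket M θ : ℝ) + 1) / M := by
  have hM' : (0:ℝ) < M := by exact_mod_cast hM
  rw [lt_div_iff₀ hM']
  have := Nat.lt_floor_add_one ((M:ℝ) * Int.fract θ)
  unfold bucket; linarith

lemma geo_bucket (N M : ℕ) (hM : 0 < M) (θ : ℝ) (L : ℕ) (hL : L ≤ N) :
    ‖∑ n ∈ range L, e (θ * n)‖ ≤ h1 N M (bucket M θ) + h1 N M (M - 1 - bucket M θ) := by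
  have hM' : (0:ℝ) < M := by exact_mod_cast hM
  set j := bucket M θ with hj
  have hjM : j < M := bucket_lt M hM θ
  have b1 := bucket_le M hM θ
  have b2 := lt_bucket M hM θ
  rw [← hj] at b1 b2
  have hN : (L:ℝ) ≤ N := by exact_mod_cast hL
  by_cases h0 : j = 0
  · have : h1 N M j = N := by simp [h1, h0]
    rw [this]
    have := geo_trivial θ L
    have := h1_nonneg N M (M - 1 - j)
    linarith
  by_cases h0' : M - 1 - j = 0
  · have : h1 N M (M - 1 - j) = N := by simp [h1, h0']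
    rw [this]
    have := geo_trivial θ L
    have := h1_nonneg N M j
    linarith
  have hjpos : (0:ℝ) < j := by
    have : 0 < j := Nat.pos_of_ne_zero h0
    exact_mod_cast this
  have hj'pos : 0 < M - 1 - j := Nat.pos_of_ne_zero h0'
  have hj'pos' : (0:ℝ) < ((M - 1 - j : ℕ) : ℝ) := by exact_mod_cast hj'pos
  have hcast : ((M - 1 - j : ℕ) : ℝ) = M - 1 - j := by
    rw [Nat.cast_sub (by omega), Nat.cast_sub (by omega)]; simp
  have e1 : h1 N M j = M / (2 * j) := by simp [h1, h0]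
  have e2 : h1 N M (M - 1 - j) = M / (2 * ((M - 1 - j : ℕ) : ℝ)) := by
    simp only [h1, h0', if_false]
  rcases le_or_gt (Int.fract θ) (1/2) with hf | hf
  · have hh := geo_bound θ L ((j:ℝ) / M) (by positivity) ⌊θ⌋ (by
      have : θ - ⌊θ⌋ = Int.fract θ := rfl
      rw [this, abs_of_nonneg (Int.fract_nonneg θ)]; exact b1) (by
      have : θ - ⌊θ⌋ = Int.fract θ := rfl
      rw [this, abs_of_nonneg (Int.fract_nonneg θ)]; exact hf)
    have : 1 / (2 * ((j:ℝ) / M)) = M / (2 * j) := by field_simp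
    rw [this] at hh
    have := h1_nonneg N M (M - 1 - j)
    rw [e1]; linarith
  · have hfr : θ - ((⌊θ⌋ + 1 : ℤ) : ℝ) = Int.fract θ - 1 := by
      push_cast; unfold Int.fract; ring
    have hlt1 := Int.fract_lt_one θ
    have hh := geo_bound θ L (((M - 1 - j : ℕ) : ℝ) / M) (by positivity) (⌊θ⌋ + 1) (by
      rw [hfr, abs_of_nonpos (by linarith), hcast]
      rw [div_le_iff₀ hM']
      rw [lt_div_iff₀ hM'] at b2
      nlinarith) (by
      rw [hfr, abs_of_nonpos (by linarith)]; linarith)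
    have : 1 / (2 * (((M - 1 - j : ℕ) : ℝ) / M)) = M / (2 * ((M - 1 - j : ℕ) : ℝ)) := by
      field_simp
    rw [this] at hh
    have := h1_nonneg N M j
    rw [e2]; linarith

lemma harmonic_le (M : ℕ) (hM : 0 < M) : ∑ i ∈ range M, (if i = 0 then (0:ℝ) else 1 / (i:ℝ)) ≤ 1 + Real.log M := by
  have h : ∀ M : ℕ, 0 < M → ∑ i ∈ range (M+1), (if i = 0 then (0:ℝ) else 1 / (i:ℝ)) ≤ 1 + Real.log M := by
    intro M hM
    have h1 := harmonic_le_one_add_log M
    have h2 : ((harmonic M : ℚ) : ℝ) = ∑ i ∈ range (M+1), (if i = 0 then (0:ℝ) else 1 / (i:ℝ)) := by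
      rw [Finset.sum_range_succ']
      simp [harmonic]
    rw [← h2]; exact h1
  calc _ ≤ ∑ i ∈ range (M+1), (if i = 0 then (0:ℝ) else 1 / (i:ℝ)) := by
        apply Finset.sum_le_sum_of_subset_of_nonneg
        · intro x hx; simp at hx ⊢; omega
        · intro i _ _; split_ifs <;> positivity
    _ ≤ _ := h M hM

lemma sum_h1 (N M : ℕ) (hM : 0 < M) : ∑ i ∈ range M, h1 N M i ≤ N + M / 2 * (1 + Real.log M) := by
  have h : ∀ i ∈ range M, h1 N M i ≤ (if i = 0 then (N:ℝ) else 0) + M/2 * (if i = 0 then (0:ℝ) else 1 / (i:ℝ)) := by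
    intro i _
    unfold h1
    split_ifs with h
    · simp
    · have : (0:ℝ) < i := by exact_mod_cast Nat.pos_of_ne_zero h
      rw [zero_add]; apply le_of_eq; field_simp
  calc _ ≤ ∑ i ∈ range M, ((if i = 0 then (N:ℝ) else 0) + M/2 * (if i = 0 then (0:ℝ) else 1 / (i:ℝ))) :=
        Finset.sum_le_sum h
    _ = ∑ i ∈ range M, (if i = 0 then (N:ℝ) else 0) + M/2 * ∑ i ∈ range M, (if i = 0 then (0:ℝ) else 1 / (i:ℝ)) := by
        rw [Finset.sum_add_distrib, Finset.mul_sum]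
    _ ≤ N + M / 2 * (1 + Real.log M) := by
        have a1 : ∑ i ∈ range M, (if i = 0 then (N:ℝ) else 0) ≤ N := by
          rw [Finset.sum_ite_eq' (range M) 0 (fun _ => (N:ℝ))]
          split_ifs <;> simp
        have a2 := harmonic_le M hM
        have : (0:ℝ) ≤ M / 2 := by positivity
        nlinarith

/-- total weight of a bucket -/
noncomputable def W (N M : ℕ) (θ : ℝ) : ℝ := h1 N M (bucket M θ) + h1 N M (M - 1 - bucket M θ)

lemma W_nonneg (N M : ℕ) (θ : ℝ) : 0 ≤ W N M θ := add_nonneg (h1_nonneg _ _ _) (h1_nonneg _ _ _)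

lemma bucket_inj (β : ℝ) (a : ℤ) (q : ℕ) (hq : 0 < q) (hcop : IsCoprime a (q:ℤ))
    (hβ : |β - a / q| ≤ 1 / (q:ℝ) ^ 2) (s L : ℕ) (hL : 2 * L ≤ q + 1) :
    Set.InjOn (fun r : ℕ => bucket (2 * q) (β * ((s + r : ℕ) : ℝ))) (range L : Set ℕ) := by
  have hq' : (0:ℝ) < q := by exact_mod_cast hq
  have key : ∀ r r' : ℕ, r < r' → r' < L →
      bucket (2 * q) (β * ((s + r : ℕ) : ℝ)) ≠ bucket (2 * q) (β * ((s + r' : ℕ) : ℝ)) := by
    intro r r' hrr hrL heq
    have b1 := bucket_le (2*q) (by positivity) (β * ((s + r : ℕ) : ℝ))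
    have b2 := lt_bucket (2*q) (by positivity) (β * ((s + r : ℕ) : ℝ))
    have b3 := bucket_le (2*q) (by positivity) (β * ((s + r' : ℕ) : ℝ))
    have b4 := lt_bucket (2*q) (by positivity) (β * ((s + r' : ℕ) : ℝ))
    rw [heq] at b1 b2
    set j : ℝ := (bucket (2 * q) (β * ((s + r' : ℕ) : ℝ)) : ℝ)
    have hd : |Int.fract (β * ((s + r' : ℕ) : ℝ)) - Int.fract (β * ((s + r : ℕ) : ℝ))| < 1 / (2 * q) := by
      have : (((2 * q : ℕ)) : ℝ) = 2 * q := by push_cast; ring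
      rw [this] at b1 b2 b3 b4
      have h5 : (j + 1) / (2 * q) = j / (2*q) + 1 / (2 * q) := by ring
      rw [h5] at b2 b4
      rw [abs_lt]; constructor <;> linarith
    set m : ℤ := ⌊β * ((s + r' : ℕ) : ℝ)⌋ - ⌊β * ((s + r : ℕ) : ℝ)⌋ with hm
    have hd2 : |β * ((r':ℝ) - r) - m| < 1 / (2 * q) := by
      have : β * ((r':ℝ) - r) - m = Int.fract (β * ((s + r' : ℕ) : ℝ)) - Int.fract (β * ((s + r : ℕ) : ℝ)) := by
        rw [hm]; unfold Int.fract; push_cast; ring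
      rw [this]; exact hd
    have hr : (0:ℝ) < (r':ℝ) - r := by
      have : (r:ℝ) < r' := by exact_mod_cast hrr
      linarith
    have hr2 : 2 * ((r':ℝ) - r) < q := by
      have : 2 * r' + 1 ≤ q := by omega
      have h1 : (2 * (r':ℝ) + 1) ≤ q := by exact_mod_cast this
      have h2 : (0:ℝ) ≤ r := by positivity
      linarith
    have hd3 : |β * ((r':ℝ) - r) - a * ((r':ℝ) - r) / q| ≤ 1 / (2 * q) := by
      have : β * ((r':ℝ) - r) - a * ((r':ℝ) - r) / q = (β - a / q) * ((r':ℝ) - r) := by ring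
      rw [this, abs_mul, abs_of_pos hr]
      calc |β - a / q| * ((r':ℝ) - r) ≤ 1 / (q:ℝ)^2 * (q / 2) := by
            apply mul_le_mul hβ (by linarith) hr.le (by positivity)
        _ = 1 / (2 * q) := by field_simp
    have hd4 : |(a * ((r':ℝ) - r)) / q - m| < 1 / q := by
      have : (a * ((r':ℝ) - r)) / q - m = (β * ((r':ℝ) - r) - m) - (β * ((r':ℝ) - r) - a * ((r':ℝ) - r) / q) := by ring
      rw [this]
      calc _ ≤ |β * ((r':ℝ) - r) - m| + |β * ((r':ℝ) - r) - a * ((r':ℝ) - r) / q| := abs_sub _ _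
        _ < 1 / (2 * q) + 1 / (2 * q) := by linarith
        _ = 1 / q := by field_simp; norm_num
    have hd5 : |((a * ((r':ℤ) - r) - q * m : ℤ) : ℝ)| < 1 := by
      have : ((a * ((r':ℤ) - r) - q * m : ℤ) : ℝ) = ((a * ((r':ℝ) - r)) / q - m) * q := by
        push_cast; field_simp
      rw [this, abs_mul, abs_of_pos hq']
      calc _ < 1 / q * (q:ℝ) := by apply mul_lt_mul_of_pos_right hd4 hq'
        _ = 1 := by field_simp
    have hd6 : a * ((r':ℤ) - r) - q * m = 0 := by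
      rw [← Int.abs_lt_one_iff]; exact_mod_cast hd5
    have hdvd : (q:ℤ) ∣ a * ((r':ℤ) - r) := ⟨m, by linarith⟩
    have hdvd2 : (q:ℤ) ∣ ((r':ℤ) - r) := (hcop.symm).dvd_of_dvd_mul_left hdvd
    have hle := Int.le_of_dvd (by omega) hdvd2
    omega
  intro r hr r' hr' heq
  simp only [coe_range, Set.mem_Iio] at hr hr'
  rcases lt_trichotomy r r' with h | h | h
  · exact absurd heq (key r r' h hr')
  · exact h
  · exact absurd heq.symm (key r' r h hr)

lemma block_sum (N : ℕ) (β : ℝ) (a : ℤ) (q : ℕ) (hq : 0 < q) (hcop : IsCoprime a (q:ℤ))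
    (hβ : |β - a / q| ≤ 1 / (q:ℝ) ^ 2) (s L : ℕ) (hL : 2 * L ≤ q + 1) :
    ∑ r ∈ range L, W N (2 * q) (β * ((s + r : ℕ) : ℝ)) ≤ 2 * (N + q * (1 + Real.log (2 * q))) := by
  have hinj := bucket_inj β a q hq hcop hβ s L hL
  set b : ℕ → ℕ := fun r : ℕ => bucket (2 * q) (β * ((s + r : ℕ) : ℝ)) with hb
  have h2q : 0 < 2 * q := by positivity
  have : ∑ r ∈ range L, W N (2 * q) (β * ((s + r : ℕ) : ℝ)) = ∑ j ∈ (range L).image b, (h1 N (2*q) j + h1 N (2*q) (2 * q - 1 - j)) := by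
    rw [Finset.sum_image hinj]
    rfl
  rw [this]
  have hsub : (range L).image b ⊆ range (2 * q) := by
    intro j hj
    rw [Finset.mem_image] at hj
    obtain ⟨r, _, rfl⟩ := hj
    rw [Finset.mem_range]; exact bucket_lt _ h2q _
  calc _ ≤ ∑ j ∈ range (2 * q), (h1 N (2*q) j + h1 N (2*q) (2 * q - 1 - j)) :=
        Finset.sum_le_sum_of_subset_of_nonneg hsub (fun i _ _ => add_nonneg (h1_nonneg _ _ _) (h1_nonneg _ _ _))
    _ = ∑ j ∈ range (2 * q), h1 N (2*q) j + ∑ j ∈ range (2 * q), h1 N (2*q) (2 * q - 1 - j) := Finset.sum_add_distrib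
    _ = 2 * ∑ j ∈ range (2 * q), h1 N (2*q) j := by
        rw [Finset.sum_range_reflect (fun j => h1 N (2*q) j) (2*q)]; ring
    _ ≤ 2 * (N + q * (1 + Real.log (2 * q))) := by
        have := sum_h1 N (2 * q) h2q
        push_cast at this
        have e1 : (2 * (q:ℝ)) / 2 = q := by ring
        rw [e1] at this
        linarith

lemma sum_blocks (f : ℕ → ℝ) (L K : ℕ) (B : ℝ) (h : ∀ s, ∑ r ∈ range L, f (s + r) ≤ B) :
    ∑ m ∈ range (K * L), f m ≤ K * B := by
  induction K with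
  | zero => simp
  | succ K ih =>
    rw [Nat.succ_mul, Finset.sum_range_add]
    have := h (K * L)
    push_cast
    linarith

lemma sum_W (N : ℕ) (β : ℝ) (a : ℤ) (q : ℕ) (hq : 0 < q) (hcop : IsCoprime a (q:ℤ))
    (hβ : |β - a / q| ≤ 1 / (q:ℝ) ^ 2) :
    ∑ m ∈ range (2 * N), W N (2 * q) (β * (m : ℝ)) ≤ (4 * N / q + 1) * (2 * (N + q * (1 + Real.log (2 * q)))) := by
  have hq' : (0:ℝ) < q := by exact_mod_cast hq
  set L := (q + 1) / 2 with hL
  have hL1 : 2 * L ≤ q + 1 := by omega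
  have hL2 : q ≤ 2 * L := by omega
  have hL3 : 0 < L := by omega
  set K := 2 * N / L + 1 with hK
  have hKL : 2 * N ≤ K * L := by
    have := Nat.lt_div_mul_add (a := 2 * N) (b := L) hL3
    rw [hK]; nlinarith
  have hB := sum_blocks (fun m => W N (2 * q) (β * (m : ℝ))) L K (2 * (N + q * (1 + Real.log (2 * q))))
    (fun s => block_sum N β a q hq hcop hβ s L hL1)
  have hlog : 0 ≤ Real.log (2 * q) := by
    apply Real.log_nonneg
    have : (1:ℝ) ≤ q := by exact_mod_cast hq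
    linarith
  calc _ ≤ ∑ m ∈ range (K * L), W N (2 * q) (β * (m : ℝ)) := by
        apply Finset.sum_le_sum_of_subset_of_nonneg
        · intro x hx; simp at hx ⊢; omega
        · intro i _ _; exact W_nonneg _ _ _
    _ ≤ K * (2 * (N + q * (1 + Real.log (2 * q)))) := hB
    _ ≤ (4 * N / q + 1) * (2 * (N + q * (1 + Real.log (2 * q)))) := by
        apply mul_le_mul_of_nonneg_right _ (by positivity)
        rw [hK]; push_cast
        have h1 : ((2 * N / L : ℕ) : ℝ) ≤ (2 * N : ℝ) / L := by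
          have := Nat.cast_div_le (α := ℝ) (m := 2 * N) (n := L)
          push_cast at this; exact this
        have h2 : (2 * N : ℝ) / L ≤ 4 * N / q := by
          rw [div_le_div_iff₀ (by exact_mod_cast hL3) hq']
          have : (q:ℝ) ≤ 2 * L := by exact_mod_cast hL2
          have h3 : (0:ℝ) ≤ N := by positivity
          nlinarith
        linarith

/-- Weyl differencing. -/
lemma norm_sq_le_triangle (c : ℕ → ℂ) (N : ℕ) :
    ‖∑ n ∈ range N, c n‖ ^ 2 ≤ 2 * (∑ m ∈ range N, ∑ n ∈ range (m + 1), c m * (starRingEnd ℂ) (c n)).re := by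
  induction N with
  | zero => simp
  | succ N ih =>
    rw [Finset.sum_range_succ (fun n => c n), Finset.sum_range_succ _ N, Complex.add_re]
    have h1 : ∑ n ∈ range (N + 1), c N * (starRingEnd ℂ) (c n) = c N * (starRingEnd ℂ) (∑ n ∈ range N, c n) + c N * (starRingEnd ℂ) (c N) := by
      rw [Finset.sum_range_succ, map_sum, Finset.mul_sum]
    rw [h1]
    set S := ∑ n ∈ range N, c n
    have h2 : ‖S + c N‖ ^ 2 = ‖S‖ ^ 2 + 2 * (c N * (starRingEnd ℂ) S).re + ‖c N‖ ^ 2 := by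
      rw [← Complex.normSq_eq_norm_sq, ← Complex.normSq_eq_norm_sq, ← Complex.normSq_eq_norm_sq]
      simp only [Complex.normSq_apply, Complex.add_re, Complex.add_im, Complex.mul_re, Complex.conj_re, Complex.conj_im]
      ring
    have h3 : (c N * (starRingEnd ℂ) (c N)).re = ‖c N‖ ^ 2 := by
      rw [← Complex.normSq_eq_norm_sq]
      simp [Complex.normSq_apply, Complex.mul_re]
    rw [h2, Complex.add_re, h3]
    nlinarith [sq_nonneg ‖c N‖]

lemma norm_sq_le_diff (c : ℕ → ℂ) (N : ℕ) :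
    ‖∑ n ∈ range N, c n‖ ^ 2 ≤ 2 * ∑ h ∈ range N, ‖∑ n ∈ range (N - h), c (n + h) * (starRingEnd ℂ) (c n)‖ := by
  have h0 := norm_sq_le_triangle c N
  have h1 : ∑ m ∈ range N, ∑ n ∈ range (m + 1), c m * (starRingEnd ℂ) (c n) =
      ∑ h ∈ range N, ∑ n ∈ range (N - h), c (n + h) * (starRingEnd ℂ) (c n) := by
    rw [← Finset.sum_range_diag_flip N (fun h n => c (n + h) * (starRingEnd ℂ) (c n))]
    apply Finset.sum_congr rfl
    intro m _
    rw [← Finset.sum_range_reflect]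
    apply Finset.sum_congr rfl
    intro k hk
    rw [Finset.mem_range] at hk
    have e1 : m + 1 - 1 - k = m - k := by omega
    have e2 : m - k + k = m := by omega
    rw [e1, e2]
  rw [h1] at h0
  calc _ ≤ _ := h0
    _ ≤ 2 * ‖∑ h ∈ range N, ∑ n ∈ range (N - h), c (n + h) * (starRingEnd ℂ) (c n)‖ := by
        have := Complex.re_le_norm (∑ h ∈ range N, ∑ n ∈ range (N - h), c (n + h) * (starRingEnd ℂ) (c n))
        linarith
    _ ≤ _ := by
        have := norm_sum_le (range N) (fun h => ∑ n ∈ range (N - h), c (n + h) * (starRingEnd ℂ) (c n))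
        linarith

/-- Weyl's inequality for quadratic phases. -/
theorem weyl (N : ℕ) (α₀ α₁ β : ℝ) (a : ℤ) (q : ℕ) (hq : 0 < q) (hcop : IsCoprime a (q:ℤ))
    (hβ : |β - a / q| ≤ 1 / (q:ℝ) ^ 2) :
    ‖∑ n ∈ range N, e (α₀ + α₁ * n + β * (n:ℝ) ^ 2)‖ ^ 2 ≤
      (4 * N / q + 1) * (4 * (N + q * (1 + Real.log (2 * q)))) := by
  have h1 := norm_sq_le_diff (fun n => e (α₀ + α₁ * n + β * (n:ℝ) ^ 2)) N
  have h2 : ∀ h ∈ range N, ‖∑ n ∈ range (N - h), e (α₀ + α₁ * ((n + h : ℕ):ℝ) + β * ((n + h : ℕ):ℝ) ^ 2) * (starRingEnd ℂ) (e (α₀ + α₁ * n + β * (n:ℝ) ^ 2))‖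
      ≤ W N (2 * q) (β * ((2 * h : ℕ) : ℝ)) := by
    intro h _
    have e1 : ∀ n : ℕ, e (α₀ + α₁ * ((n + h : ℕ):ℝ) + β * ((n + h : ℕ):ℝ) ^ 2) * (starRingEnd ℂ) (e (α₀ + α₁ * n + β * (n:ℝ) ^ 2))
        = e (α₁ * h + β * h ^ 2) * e ((β * ((2 * h : ℕ) : ℝ)) * n) := by
      intro n
      rw [← e_neg, ← e_add, ← e_add]
      congr 1; push_cast; ring
    simp_rw [e1]
    rw [← Finset.mul_sum, norm_mul, norm_e, one_mul]
    exact geo_bucket N (2 * q) (by positivity) _ _ (Nat.sub_le _ _)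
  have h3 := Finset.sum_le_sum h2
  have h4 : ∑ h ∈ range N, W N (2 * q) (β * ((2 * h : ℕ) : ℝ)) ≤ ∑ m ∈ range (2 * N), W N (2 * q) (β * (m : ℝ)) := by
    have hinj : Set.InjOn (fun h : ℕ => 2 * h) (range N : Set ℕ) := by
      intro x _ y _ hxy; simp at hxy; exact hxy
    have : ∑ h ∈ range N, W N (2 * q) (β * ((2 * h : ℕ) : ℝ)) = ∑ m ∈ (range N).image (fun h : ℕ => 2 * h), W N (2 * q) (β * (m : ℝ)) := by
      rw [Finset.sum_image hinj]
    rw [this]
    apply Finset.sum_le_sum_of_subset_of_nonneg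
    · intro x hx
      rw [Finset.mem_image] at hx
      obtain ⟨y, hy, rfl⟩ := hx
      simp at hy ⊢; omega
    · intro i _ _; exact W_nonneg _ _ _
  have h5 := sum_W N β a q hq hcop hβ
  calc _ ≤ _ := h1
    _ ≤ 2 * ∑ h ∈ range N, W N (2 * q) (β * ((2 * h : ℕ) : ℝ)) := by linarith
    _ ≤ 2 * ((4 * N / q + 1) * (2 * (N + q * (1 + Real.log (2 * q))))) := by linarith
    _ = _ := by ring

end Pool.Agent.N891.WG
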