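import Mathlib
import Pool.Agent.N891.WG.Weyl

open Finset

namespace Pool.Agent.N891.WG

lemma sum_range_mul' {A : Type*} [AddCommMonoid A] (f : ℕ → A) (M q : ℕ) :
    ∑ m ∈ range (M * q), f m = ∑ j ∈ range M, ∑ r ∈ range q, f (j * q + r) := by
  induction M with
  | zero => simp
  | succ M ih => rw [Nat.succ_mul, Finset.sum_range_add, ih, Finset.sum_range_succ]

lemma e_div_eq (q : ℕ) [NeZero q] (k : ℤ) : e ((k:ℝ) / q) = ZMod.stdAddChar ((k : ℤ) : ZMod q) := by
  rw [ZMod.stdAddChar_coe]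
  simp only [e]
  congr 1; push_cast; ring

lemma gauss_eq (q : ℕ) [NeZero q] (a b : ℤ) :
    ∑ r ∈ range q, e (((a * (r:ℤ) ^ 2 + b * r : ℤ) : ℝ) / q) =
      ∑ x : ZMod q, ZMod.stdAddChar ((a : ZMod q) * x ^ 2 + (b : ZMod q) * x) := by
  refine Finset.sum_nbij' (fun r : ℕ => (r : ZMod q)) (fun x : ZMod q => x.val) ?_ ?_ ?_ ?_ ?_
  · intro r _; simp
  · intro x _; simp [ZMod.val_lt]
  · intro r hr; simp at hr; exact ZMod.val_natCast_of_lt hr
  · intro x _; simp
  · intro r _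
    rw [e_div_eq]
    congr 1
    push_cast; ring

lemma gauss_normSq (q : ℕ) [NeZero q] (hodd : Odd q) (a b : ℤ) (hcop : IsCoprime a (q:ℤ)) :
    ‖∑ r ∈ range q, e (((a * (r:ℤ) ^ 2 + b * r : ℤ) : ℝ) / q)‖ ^ 2 = q := by
  rw [gauss_eq]
  set ψ : AddChar (ZMod q) ℂ := ZMod.stdAddChar with hψ
  set G := ∑ x : ZMod q, ψ ((a : ZMod q) * x ^ 2 + b * x) with hG
  have hconj : ∀ x : ZMod q, (starRingEnd ℂ) (ψ x) = ψ (-x) := by
    intro x
    rw [AddChar.map_neg_eq_conj]
  have h1 : G * (starRingEnd ℂ) G = q := by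
    have hexp : G * (starRingEnd ℂ) G = ∑ y : ZMod q, ∑ x : ZMod q, ψ ((a : ZMod q) * x ^ 2 + b * x) * ψ (-((a : ZMod q) * y ^ 2 + b * y)) := by
      rw [hG, map_sum, Finset.sum_mul_sum, Finset.sum_comm]
      apply Finset.sum_congr rfl; intro y _
      apply Finset.sum_congr rfl; intro x _
      rw [hconj]
    rw [hexp]
    have hsh : ∀ y : ZMod q, ∑ x : ZMod q, ψ ((a : ZMod q) * x ^ 2 + b * x) * ψ (-((a : ZMod q) * y ^ 2 + b * y))
        = ∑ h : ZMod q, ψ ((a : ZMod q) * h ^ 2 + b * h) * ψ (y * (2 * a * h)) := by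
      intro y
      rw [← Equiv.sum_comp (Equiv.addRight y)]
      apply Finset.sum_congr rfl; intro h _
      rw [← AddChar.map_add_eq_mul, ← AddChar.map_add_eq_mul]
      congr 1
      simp only [Equiv.coe_addRight]
      ring
    simp_rw [hsh]
    rw [Finset.sum_comm]
    have hin : ∀ h : ZMod q, ∑ y : ZMod q, ψ ((a : ZMod q) * h ^ 2 + b * h) * ψ (y * (2 * a * h)) =
        if h = 0 then (q:ℂ) else 0 := by
      intro h
      rw [← Finset.mul_sum, AddChar.sum_mulShift (2 * a * h) (ZMod.isPrimitive_stdAddChar q)]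
      have hu2 : IsUnit (2 : ZMod q) := by
        have : IsUnit ((2:ℕ) : ZMod q) := by
          rw [ZMod.isUnit_iff_coprime]
          exact Nat.coprime_two_left.mpr hodd
        simpa using this
      have hua : IsUnit (a : ZMod q) := by
        obtain ⟨u, v, huv⟩ := hcop
        have := congrArg (fun z : ℤ => (z : ZMod q)) huv
        simp at this
        exact IsUnit.of_mul_eq_one (u : ZMod q) (by rw [mul_comm]; exact this)
      by_cases h0 : h = 0
      · simp [h0]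
      · have : (2 * (a : ZMod q) * h) ≠ 0 := by
          intro hz
          apply h0
          have hu := hu2.mul hua
          exact (hu.mul_right_eq_zero).mp hz
        simp [h0, this]
    simp_rw [hin]
    simp
  have h2 : ((‖G‖ ^ 2 : ℝ) : ℂ) = (q : ℂ) := by
    rw [← h1, Complex.mul_conj, Complex.normSq_eq_norm_sq]
  exact_mod_cast h2

lemma norm_e_sub_e (x y : ℝ) : ‖e x - e y‖ ≤ 2 * Real.pi * |x - y| := by
  have : e x - e y = e y * (e (x - y) - 1) := by
    rw [mul_sub, ← e_add]; congr 1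
    · congr 1; ring
    · ring
  rw [this, norm_mul, norm_e, one_mul]
  exact norm_e_sub_one_le _

/-- lower bound for the quadratic Weyl sum near a rational point with odd denominator -/
theorem lower (q M : ℕ) (hodd : Odd q) (a b : ℤ) (hcop : IsCoprime a (q:ℤ))
    (δ₁ δ₂ η : ℝ) (h1 : |δ₁| * (M * q) ≤ η) (h2 : |δ₂| * (M * q) ^ 2 ≤ η) :
    Real.sqrt q * M * (1 - 4 * Real.pi * η) - 6 * Real.pi * η * q ≤
      ‖∑ n ∈ range (M * q), e ((b / q + δ₁) * n + (a / q + δ₂) * (n:ℝ) ^ 2)‖ := by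
  have hqpos : 0 < q := hodd.pos
  have : NeZero q := ⟨hqpos.ne'⟩
  have hq' : (0:ℝ) < q := by exact_mod_cast hqpos
  set G := ∑ r ∈ range q, e (((a * (r:ℤ) ^ 2 + b * r : ℤ) : ℝ) / q) with hG
  have hGn : ‖G‖ = Real.sqrt q := by
    have := gauss_normSq q hodd a b hcop
    rw [← hG] at this
    rw [← this, Real.sqrt_sq (norm_nonneg _)]
  set φ : ℝ → ℝ := fun t => δ₁ * t + δ₂ * t ^ 2 with hφ
  rw [sum_range_mul']
  have hterm : ∀ j r : ℕ, e ((b / q + δ₁) * ((j * q + r : ℕ) : ℝ) + (a / q + δ₂) * (((j * q + r : ℕ) : ℝ)) ^ 2)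
      = e (((a * (r:ℤ) ^ 2 + b * r : ℤ) : ℝ) / q) * e (φ ((j * q + r : ℕ) : ℝ)) := by
    intro j r
    rw [← e_add]
    have := e_add_int ((((a * (r:ℤ) ^ 2 + b * r : ℤ) : ℝ) / q) + φ ((j * q + r : ℕ) : ℝ)) (b * j + a * (j ^ 2 * q + 2 * j * r))
    rw [← this]
    congr 1
    simp only [hφ]
    push_cast
    field_simp
    ring
  simp_rw [hterm]
  -- the main term
  have hmain : ‖∑ j ∈ range M, e (φ ((j * q : ℕ) : ℝ)) - M‖ ≤ 4 * Real.pi * η * M := by
    have e1 : ∑ j ∈ range M, e (φ ((j * q : ℕ) : ℝ)) - M = ∑ j ∈ range M, (e (φ ((j * q : ℕ) : ℝ)) - 1) := by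
      rw [Finset.sum_sub_distrib]; simp
    rw [e1]
    calc _ ≤ ∑ j ∈ range M, ‖e (φ ((j * q : ℕ) : ℝ)) - 1‖ := norm_sum_le _ _
      _ ≤ ∑ j ∈ range M, (4 * Real.pi * η) := by
          apply Finset.sum_le_sum
          intro j hj
          rw [Finset.mem_range] at hj
          refine le_trans (norm_e_sub_one_le _) ?_
          have hjM : (j:ℝ) ≤ M := by exact_mod_cast hj.le
          have hjq : ((j * q : ℕ) : ℝ) ≤ M * q := by push_cast; nlinarith
          have hjq0 : (0:ℝ) ≤ ((j * q : ℕ) : ℝ) := by positivity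
          have : |φ ((j * q : ℕ) : ℝ)| ≤ 2 * η := by
            calc |φ ((j * q : ℕ) : ℝ)| ≤ |δ₁ * ((j * q : ℕ) : ℝ)| + |δ₂ * ((j * q : ℕ) : ℝ) ^ 2| := abs_add_le _ _
              _ = |δ₁| * ((j * q : ℕ) : ℝ) + |δ₂| * ((j * q : ℕ) : ℝ) ^ 2 := by
                  rw [abs_mul, abs_mul, abs_of_nonneg hjq0, abs_of_nonneg (by positivity : (0:ℝ) ≤ ((j * q : ℕ) : ℝ) ^ 2)]
              _ ≤ |δ₁| * (M * q) + |δ₂| * (M * q) ^ 2 := by
                  gcongr
              _ ≤ 2 * η := by linarith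
          nlinarith [Real.pi_pos]
      _ = 4 * Real.pi * η * M := by simp; ring
  have herr : ‖∑ j ∈ range M, ∑ r ∈ range q, e (((a * (r:ℤ) ^ 2 + b * r : ℤ) : ℝ) / q) * e (φ ((j * q + r : ℕ) : ℝ))
      - G * ∑ j ∈ range M, e (φ ((j * q : ℕ) : ℝ))‖ ≤ 6 * Real.pi * η * q := by
    have e1 : ∑ j ∈ range M, ∑ r ∈ range q, e (((a * (r:ℤ) ^ 2 + b * r : ℤ) : ℝ) / q) * e (φ ((j * q + r : ℕ) : ℝ))
      - G * ∑ j ∈ range M, e (φ ((j * q : ℕ) : ℝ)) = ∑ j ∈ range M, ∑ r ∈ range q, e (((a * (r:ℤ) ^ 2 + b * r : ℤ) : ℝ) / q) * (e (φ ((j * q + r : ℕ) : ℝ)) - e (φ ((j * q : ℕ) : ℝ))) := by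
      rw [hG, Finset.sum_mul_sum, Finset.sum_comm (s := range q), ← Finset.sum_sub_distrib]
      apply Finset.sum_congr rfl; intro j _
      rw [← Finset.sum_sub_distrib]
      apply Finset.sum_congr rfl; intro r _
      ring
    rw [e1]
    rcases Nat.eq_zero_or_pos M with hM0 | hMpos
    · subst hM0
      simp only [Finset.range_zero, Finset.sum_empty, norm_zero]
      have : 0 ≤ η := le_trans (by positivity) h1
      positivity
    have hM' : (0:ℝ) < M := by exact_mod_cast hMpos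
    calc _ ≤ ∑ j ∈ range M, ∑ r ∈ range q, ‖e (((a * (r:ℤ) ^ 2 + b * r : ℤ) : ℝ) / q) * (e (φ ((j * q + r : ℕ) : ℝ)) - e (φ ((j * q : ℕ) : ℝ)))‖ := by
          refine le_trans (norm_sum_le _ _) ?_
          apply Finset.sum_le_sum; intro j _
          exact norm_sum_le _ _
      _ ≤ ∑ j ∈ range M, ∑ r ∈ range q, (6 * Real.pi * η / M) := by
          apply Finset.sum_le_sum; intro j hj
          apply Finset.sum_le_sum; intro r hr
          rw [Finset.mem_range] at hj hr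
          rw [norm_mul, norm_e, one_mul]
          refine le_trans (norm_e_sub_e _ _) ?_
          have hr' : (r:ℝ) ≤ q := by exact_mod_cast hr.le
          have hr0 : (0:ℝ) ≤ r := by positivity
          have hj' : ((j:ℝ) + 1) ≤ M := by exact_mod_cast hj
          have hj0 : (0:ℝ) ≤ j := by positivity
          have hd : φ ((j * q + r : ℕ) : ℝ) - φ ((j * q : ℕ) : ℝ) = δ₁ * r + δ₂ * (r * (2 * (j * q) + r)) := by
            simp only [hφ]; push_cast; ring
          have hb : |φ ((j * q + r : ℕ) : ℝ) - φ ((j * q : ℕ) : ℝ)| ≤ 3 * η / M := by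
            rw [hd]
            have hx : 2 * ((j:ℝ) * q) + r ≤ 2 * (M * q) := by nlinarith
            calc |δ₁ * r + δ₂ * (r * (2 * (j * q) + r))| ≤ |δ₁ * r| + |δ₂ * (r * (2 * (j * q) + r))| := abs_add_le _ _
              _ = |δ₁| * r + |δ₂| * (r * (2 * (j * q) + r)) := by
                  rw [abs_mul, abs_mul, abs_of_nonneg hr0, abs_of_nonneg (by positivity : (0:ℝ) ≤ (r * (2 * (j * q) + r)))]
              _ ≤ |δ₁| * q + |δ₂| * (q * (2 * (M * q))) := by
                  gcongr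
              _ = (|δ₁| * (M * q) + 2 * (|δ₂| * (M * q) ^ 2)) / M := by
                  field_simp
              _ ≤ 3 * η / M := by
                  apply div_le_div_of_nonneg_right _ hM'.le
                  linarith
          calc _ ≤ 2 * Real.pi * (3 * η / M) := by
                apply mul_le_mul_of_nonneg_left hb (by positivity)
            _ = _ := by ring
      _ = 6 * Real.pi * η * q := by
          simp only [Finset.sum_const, Finset.card_range, nsmul_eq_mul]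
          field_simp
  have hGm : Real.sqrt q * M * (1 - 4 * Real.pi * η) ≤ ‖G * ∑ j ∈ range M, e (φ ((j * q : ℕ) : ℝ))‖ := by
    rw [norm_mul, hGn]
    have : (M:ℝ) - 4 * Real.pi * η * M ≤ ‖∑ j ∈ range M, e (φ ((j * q : ℕ) : ℝ))‖ := by
      have h3 : ‖(M:ℂ)‖ ≤ ‖∑ j ∈ range M, e (φ ((j * q : ℕ) : ℝ))‖ + ‖∑ j ∈ range M, e (φ ((j * q : ℕ) : ℝ)) - M‖ := by
        have := norm_sub_le (∑ j ∈ range M, e (φ ((j * q : ℕ) : ℝ))) (∑ j ∈ range M, e (φ ((j * q : ℕ) : ℝ)) - M)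
        simpa using this
      rw [Complex.norm_natCast] at h3
      linarith
    have hs := Real.sqrt_nonneg (q:ℝ)
    calc Real.sqrt q * M * (1 - 4 * Real.pi * η) = Real.sqrt q * (M - 4 * Real.pi * η * M) := by ring
      _ ≤ _ := mul_le_mul_of_nonneg_left this hs
  set T := ∑ j ∈ range M, ∑ r ∈ range q, e (((a * (r:ℤ) ^ 2 + b * r : ℤ) : ℝ) / q) * e (φ ((j * q + r : ℕ) : ℝ))
  set U := G * ∑ j ∈ range M, e (φ ((j * q : ℕ) : ℝ))
  have h4 : ‖U‖ ≤ ‖T‖ + ‖T - U‖ := by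
    have := norm_sub_le T (T - U)
    simpa using this
  linarith

end Pool.Agent.N891.WG
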