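import Mathlib
import Pool.Agent.N891.WG.Weyl

open Finset

namespace Pool.Agent.N891.WG

/-- exponents `n_0 = 10`, `n_{k+1} = ⌈τ n_k⌉`. -/
noncomputable def nn (τ : ℝ) : ℕ → ℕ
  | 0 => 10
  | k + 1 => ⌈τ * nn τ k⌉₊

variable {τ : ℝ}

lemma nn_succ_ge (k : ℕ) : τ * nn τ k ≤ nn τ (k + 1) := Nat.le_ceil _

lemma nn_succ_lt (hτ : 3 < τ) (k : ℕ) : (nn τ (k + 1) : ℝ) < τ * nn τ k + 1 :=
  Nat.ceil_lt_add_one (by positivity)

lemma nn_ge (hτ : 3 < τ) (k : ℕ) : 10 ≤ nn τ k := by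
  induction k with
  | zero => simp [nn]
  | succ k ih =>
    have h := nn_succ_ge (τ := τ) k
    have ih' : (10:ℝ) ≤ nn τ k := by exact_mod_cast ih
    have : (10:ℝ) ≤ nn τ (k+1) := by nlinarith
    exact_mod_cast this

lemma nn_three (hτ : 3 < τ) (k : ℕ) : 3 * nn τ k ≤ nn τ (k + 1) := by
  have h := nn_succ_ge (τ := τ) k
  have ih' : (10:ℝ) ≤ nn τ k := by exact_mod_cast nn_ge hτ k
  have : (3:ℝ) * nn τ k ≤ nn τ (k+1) := by nlinarith
  exact_mod_cast this

lemma nn_strictMono (hτ : 3 < τ) : StrictMono (nn τ) := by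
  apply strictMono_nat_of_lt_succ
  intro k
  have h1 := nn_three hτ k
  have h2 := nn_ge hτ k
  omega

/-- `β_τ = ∑ 3^{-n_k}`. -/
noncomputable def beta (τ : ℝ) : ℝ := ∑' k, ((3:ℝ)⁻¹) ^ (nn τ k)

lemma summ_aux (f : ℕ → ℕ) (hf : StrictMono f) : Summable (fun k => ((3:ℝ)⁻¹) ^ (f k)) := by
  apply Summable.comp_injective (summable_geometric_of_lt_one (by norm_num) (by norm_num)) hf.injective

lemma tail_aux (f : ℕ → ℕ) (hf : StrictMono f) : ∑' k, ((3:ℝ)⁻¹) ^ (f k) ≤ (3/2) * ((3:ℝ)⁻¹) ^ (f 0) := by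
  have h1 : ∀ k, f 0 + k ≤ f k := by
    intro k
    induction k with
    | zero => simp
    | succ k ih => have := hf (Nat.lt_succ_self k); simp at this; omega
  have hs : Summable (fun k : ℕ => ((3:ℝ)⁻¹) ^ (f 0 + k)) := by
    simp_rw [pow_add]
    exact (summable_geometric_of_lt_one (by norm_num) (by norm_num)).mul_left _
  calc _ ≤ ∑' k : ℕ, ((3:ℝ)⁻¹) ^ (f 0 + k) := by
        apply Summable.tsum_le_tsum _ (summ_aux f hf) hs
        intro k
        exact pow_le_pow_of_le_one (by norm_num) (by norm_num) (h1 k)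
    _ = (3/2) * ((3:ℝ)⁻¹) ^ (f 0) := by
        simp_rw [pow_add]
        rw [tsum_mul_left, tsum_geometric_of_lt_one (by norm_num) (by norm_num)]
        ring

/-- numerators -/
noncomputable def An (τ : ℝ) (k : ℕ) : ℕ := ∑ j ∈ range (k + 1), 3 ^ (nn τ k - nn τ j)

lemma An_mod (hτ : 3 < τ) (k : ℕ) : An τ k % 3 = 1 := by
  unfold An
  rw [Finset.sum_range_succ, Nat.sub_self, pow_zero]
  have : 3 ∣ ∑ j ∈ range k, 3 ^ (nn τ k - nn τ j) := by
    apply Finset.dvd_sum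
    intro j hj
    rw [Finset.mem_range] at hj
    have := nn_strictMono hτ hj
    apply dvd_pow_self
    omega
  omega

lemma An_div (hτ : 3 < τ) (k : ℕ) : (An τ k : ℝ) / 3 ^ (nn τ k) = ∑ j ∈ range (k + 1), ((3:ℝ)⁻¹) ^ (nn τ j) := by
  unfold An
  push_cast
  rw [Finset.sum_div]
  apply Finset.sum_congr rfl
  intro j hj
  rw [Finset.mem_range] at hj
  have hle : nn τ j ≤ nn τ k := (nn_strictMono hτ).monotone (by omega)
  have : (3:ℝ) ^ (nn τ k) = 3 ^ (nn τ k - nn τ j) * 3 ^ (nn τ j) := by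
    rw [← pow_add]; congr 1; omega
  rw [this, inv_pow]
  field_simp

lemma beta_split (hτ : 3 < τ) (k : ℕ) : beta τ = (An τ k : ℝ) / 3 ^ (nn τ k) + ∑' i, ((3:ℝ)⁻¹) ^ (nn τ (i + (k + 1))) := by
  rw [An_div hτ, beta]
  rw [← Summable.sum_add_tsum_nat_add (k+1) (summ_aux _ (nn_strictMono hτ))]

lemma beta_sub_le (hτ : 3 < τ) (k : ℕ) : beta τ - (An τ k : ℝ) / 3 ^ (nn τ k) ≤ (3/2) * ((3:ℝ)⁻¹) ^ (nn τ (k+1)) := by
  rw [beta_split hτ k, add_sub_cancel_left]
  have hm : StrictMono (fun i => nn τ (i + (k + 1))) := by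
    intro a b hab; apply nn_strictMono hτ; omega
  have := tail_aux _ hm
  simpa using this

lemma beta_sub_ge (hτ : 3 < τ) (k : ℕ) : ((3:ℝ)⁻¹) ^ (nn τ (k+1)) ≤ beta τ - (An τ k : ℝ) / 3 ^ (nn τ k) := by
  rw [beta_split hτ k, add_sub_cancel_left]
  have hm : StrictMono (fun i => nn τ (i + (k + 1))) := by
    intro a b hab; apply nn_strictMono hτ; omega
  have h0 := (summ_aux _ hm).le_tsum 0 (fun j _ => by positivity)
  simpa using h0

lemma beta_nonneg : 0 ≤ beta τ := tsum_nonneg (fun k => by positivity)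

lemma beta_lt_one (hτ : 3 < τ) : beta τ < 1 := by
  have := tail_aux _ (nn_strictMono hτ)
  have h2 : nn τ 0 = 10 := rfl
  rw [h2] at this
  unfold beta
  calc _ ≤ _ := this
    _ < 1 := by norm_num

/-- Irrationality measure: `|β - a/q| ≥ c q^{-τ}`. -/
theorem beta_measure (hτ : 3 < τ) (a : ℤ) (q : ℕ) (hq : 0 < q) :
    1 / (2 * 3 ^ 10 * (q:ℝ) ^ τ) ≤ |beta τ - a / q| := by
  have hq' : (0:ℝ) < q := by exact_mod_cast hq
  have hq1 : (1:ℝ) ≤ q := by exact_mod_cast hq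
  -- choose k minimal with 3 q Q_k ≤ Q_{k+1}
  have hex : ∃ k, 3 * q * 3 ^ (nn τ k) ≤ 3 ^ (nn τ (k + 1)) := by
    refine ⟨q, ?_⟩
    have h1 : nn τ q + (q + 1) ≤ nn τ (q + 1) := by
      have h1 := nn_three hτ q
      have h2 : q ≤ nn τ q := (nn_strictMono hτ).id_le q
      have h3 := nn_ge hτ q
      omega
    calc 3 * q * 3 ^ (nn τ q) ≤ 3 * 3 ^ q * 3 ^ (nn τ q) := by
          have : q ≤ 3 ^ q := (Nat.lt_pow_self (by norm_num)).le
          gcongr
      _ = 3 ^ (nn τ q + (q + 1)) := by ring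
      _ ≤ _ := Nat.pow_le_pow_right (by norm_num) h1
  classical
  set k := Nat.find hex with hk
  have hk1 : 3 * q * 3 ^ (nn τ k) ≤ 3 ^ (nn τ (k + 1)) := Nat.find_spec hex
  have hk2 : ∀ j < k, 3 ^ (nn τ (j + 1)) < 3 * q * 3 ^ (nn τ j) := by
    intro j hj
    exact not_le.mp (Nat.find_min hex hj)
  set Q : ℝ := 3 ^ (nn τ k) with hQ
  have hQpos : 0 < Q := by positivity
  have hup := beta_sub_le hτ k
  have hlow := beta_sub_ge hτ k
  have hk1' : 3 * (q:ℝ) * Q ≤ 3 ^ (nn τ (k + 1)) := by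
    have : ((3 * q * 3 ^ (nn τ k) : ℕ) : ℝ) ≤ ((3 ^ (nn τ (k + 1)) : ℕ) : ℝ) := by exact_mod_cast hk1
    push_cast at this; exact this
  have hpowτ : (q:ℝ) ≤ (q:ℝ) ^ τ := by
    calc (q:ℝ) = (q:ℝ) ^ (1:ℝ) := (Real.rpow_one _).symm
      _ ≤ _ := Real.rpow_le_rpow_of_exponent_le hq1 (by linarith)
  have hpowτ3 : (q:ℝ)^3 ≤ (q:ℝ) ^ τ := by
    calc (q:ℝ)^3 = (q:ℝ) ^ (3:ℝ) := by norm_cast
      _ ≤ _ := Real.rpow_le_rpow_of_exponent_le hq1 (by linarith)
  by_cases heq : (a:ℝ) / q = (An τ k : ℝ) / Q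
  · -- a/q = P_k
    have hdvd : 3 ^ (nn τ k) ∣ q := by
      have h1 : (a:ℝ) * Q = (An τ k : ℝ) * q := by
        field_simp at heq; linarith
      have h2 : a * 3 ^ (nn τ k) = (An τ k : ℤ) * q := by
        have : ((a * 3 ^ (nn τ k) : ℤ) : ℝ) = ((An τ k : ℤ) * q : ℤ) := by
          push_cast; exact h1
        exact_mod_cast this
      have h3 : (3:ℤ) ^ (nn τ k) ∣ (An τ k : ℤ) * q := ⟨a, by linarith⟩
      have hc : Nat.Coprime (3 ^ (nn τ k)) (An τ k) := by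
        apply Nat.Coprime.pow_left
        rw [Nat.Prime.coprime_iff_not_dvd Nat.prime_three]
        have := An_mod hτ k
        omega
      have h4 : 3 ^ (nn τ k) ∣ An τ k * q := by exact_mod_cast h3
      exact hc.dvd_of_dvd_mul_left h4
    have hQq : Q ≤ q := by
      have := Nat.le_of_dvd hq hdvd
      have : ((3 ^ (nn τ k) : ℕ) : ℝ) ≤ q := by exact_mod_cast this
      push_cast at this; exact this
    rw [heq]
    have hlt := nn_succ_lt hτ k
    have h5 : (3:ℝ) ^ (nn τ (k+1)) ≤ 3 * (q:ℝ) ^ τ := by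
      calc (3:ℝ) ^ (nn τ (k+1)) = (3:ℝ) ^ ((nn τ (k+1) : ℕ) : ℝ) := (Real.rpow_natCast _ _).symm
        _ ≤ (3:ℝ) ^ (τ * nn τ k + 1) := Real.rpow_le_rpow_of_exponent_le (by norm_num) hlt.le
        _ = 3 * Q ^ τ := by
            rw [Real.rpow_add (by norm_num), Real.rpow_one, mul_comm τ, Real.rpow_mul (by norm_num), Real.rpow_natCast]
            ring
        _ ≤ 3 * (q:ℝ) ^ τ := by
            have := Real.rpow_le_rpow hQpos.le hQq (by linarith : 0 ≤ τ)
            linarith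
    calc 1 / (2 * 3 ^ 10 * (q:ℝ) ^ τ) ≤ 1 / (3 ^ (nn τ (k+1))) := by
          apply one_div_le_one_div_of_le (by positivity)
          have : 0 < (q:ℝ) ^ τ := by positivity
          linarith
      _ = ((3:ℝ)⁻¹) ^ (nn τ (k+1)) := by rw [inv_pow, one_div]
      _ ≤ _ := hlow
      _ ≤ _ := le_abs_self _
  · -- a/q ≠ P_k
    have hsep : 1 / (q * Q) ≤ |(a:ℝ) / q - (An τ k : ℝ) / Q| := by
      have h1 : (a:ℝ) / q - (An τ k : ℝ) / Q = ((a * 3 ^ (nn τ k) - (An τ k : ℤ) * q : ℤ) : ℝ) / (q * Q) := by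
        push_cast; rw [← hQ]; field_simp
      rw [h1, abs_div, abs_of_pos (by positivity : (0:ℝ) < q * Q)]
      apply div_le_div_of_nonneg_right _ (by positivity)
      have hne : (a * 3 ^ (nn τ k) - (An τ k : ℤ) * q : ℤ) ≠ 0 := by
        intro h0
        apply heq
        have : ((a * 3 ^ (nn τ k) - (An τ k : ℤ) * q : ℤ) : ℝ) = 0 := by rw [h0]; simp
        rw [this, zero_div] at h1
        linarith
      have := Int.one_le_abs hne
      exact_mod_cast this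
    have hup2 : |beta τ - (An τ k : ℝ) / Q| ≤ 1 / (2 * (q * Q)) := by
      have h0 : 0 ≤ beta τ - (An τ k : ℝ) / Q := le_trans (by positivity) hlow
      rw [abs_of_nonneg h0]
      calc _ ≤ _ := hup
        _ = (3/2) / (3 ^ (nn τ (k+1))) := by rw [inv_pow]; ring
        _ ≤ (3/2) / (3 * (q:ℝ) * Q) := by
            apply div_le_div_of_nonneg_left (by norm_num) (by positivity) hk1'
        _ = 1 / (2 * (q * Q)) := by field_simp
    have hmain : 1 / (2 * (q * Q)) ≤ |beta τ - a / q| := by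
      have h1 : |(a:ℝ) / q - (An τ k : ℝ) / Q| ≤ |beta τ - a / q| + |beta τ - (An τ k : ℝ) / Q| := by
        have : (a:ℝ) / q - (An τ k : ℝ) / Q = -(beta τ - a / q) + (beta τ - (An τ k : ℝ) / Q) := by ring
        rw [this]
        calc _ ≤ |-(beta τ - a / q)| + |(beta τ - (An τ k : ℝ) / Q)| := abs_add_le _ _
          _ = _ := by rw [abs_neg]
      have h2 : 1 / (q * Q) = 1 / (2 * (q * Q)) + 1 / (2 * (q * Q)) := by field_simp; norm_num
      linarith
    refine le_trans ?_ hmain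
    apply one_div_le_one_div_of_le (by positivity)
    -- 2 q Q ≤ 2*3^10 q^τ
    rcases Nat.eq_zero_or_pos k with h0 | hpos
    · have : Q = 3 ^ 10 := by rw [hQ, h0]; simp [nn]
      rw [this]
      nlinarith
    · obtain ⟨j, hj⟩ : ∃ j, k = j + 1 := ⟨k - 1, by omega⟩
      have h1 := hk2 j (by omega)
      rw [← hj] at h1
      set R : ℝ := 3 ^ (nn τ j) with hR
      have hRpos : 0 < R := by positivity
      have h1' : Q < 3 * q * R := by
        have : ((3 ^ (nn τ k) : ℕ) : ℝ) < ((3 * q * 3 ^ (nn τ j) : ℕ) : ℝ) := by exact_mod_cast h1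
        push_cast at this; exact this
      have h2 : R ^ 3 ≤ Q := by
        rw [hR, hQ, ← pow_mul]
        apply pow_le_pow_right₀ (by norm_num)
        have := nn_three hτ j
        rw [hj]; omega
      have h3 : R ^ 2 < 3 * q := by
        have : R * R ^ 2 < R * (3 * q) := by nlinarith
        exact lt_of_mul_lt_mul_left this hRpos.le
      have hR1 : 1 ≤ R := by rw [hR]; exact one_le_pow₀ (by norm_num)
      have h4 : R < 3 * q := by nlinarith
      have h5 : Q < 9 * q ^ 2 := by nlinarith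
      calc 2 * (q * Q) ≤ 2 * (q * (9 * q ^ 2)) := by gcongr
        _ = 18 * (q:ℝ) ^ 3 := by ring
        _ ≤ 2 * 3 ^ 10 * (q:ℝ) ^ τ := by nlinarith [hpowτ3]

end Pool.Agent.N891.WG
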