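import Mathlib
import Pool.Agent.N891.WG.Liou
import Pool.Agent.N891.WG.Cantor

open Finset

namespace Pool.Agent.N891.WG

variable {τ : ℝ}

/-- end of the zero window starting at `n_k` -/
noncomputable def ww (τ : ℝ) (k : ℕ) : ℕ := ⌈τ / 2 * nn τ k⌉₊ + 2

lemma ww_ge (k : ℕ) : τ / 2 * nn τ k + 2 ≤ ww τ k := by
  unfold ww; push_cast
  have := Nat.le_ceil (τ / 2 * nn τ k)
  linarith

lemma ww_lt (hτ : 3 < τ) (k : ℕ) : (ww τ k : ℝ) < τ / 2 * nn τ k + 3 := by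
  unfold ww; push_cast
  have := Nat.ceil_lt_add_one (a := τ / 2 * nn τ k) (by positivity)
  linarith

lemma nn_lt_ww (hτ : 3 < τ) (k : ℕ) : nn τ k < ww τ k := by
  have h1 := ww_ge (τ := τ) k
  have h2 : (10:ℝ) ≤ nn τ k := by exact_mod_cast nn_ge hτ k
  have : (nn τ k : ℝ) < ww τ k := by nlinarith
  exact_mod_cast this

lemma ww_lt_nn (hτ : 3 < τ) (k : ℕ) : ww τ k < nn τ (k + 1) := by
  have h1 := ww_lt hτ k
  have h2 : (10:ℝ) ≤ nn τ k := by exact_mod_cast nn_ge hτ k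
  have h3 := nn_succ_ge (τ := τ) k
  have : (ww τ k : ℝ) < nn τ (k + 1) := by nlinarith
  exact_mod_cast this

/-- free positions -/
def PP (τ : ℝ) (m : ℕ) : Prop := ∃ k, ww τ k ≤ m ∧ m < nn τ (k + 1)

lemma not_PP_window (hτ : 3 < τ) (k m : ℕ) (h1 : nn τ k ≤ m) (h2 : m < ww τ k) : ¬ PP τ m := by
  rintro ⟨j, hj1, hj2⟩
  rcases lt_trichotomy j k with h | h | h
  · have : nn τ (j + 1) ≤ nn τ k := (nn_strictMono hτ).monotone (by omega)
    omega
  · subst h; omega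
  · have h3 : nn τ (k+1) ≤ nn τ j := (nn_strictMono hτ).monotone (by omega)
    have h4 := nn_lt_ww hτ j
    have h5 := ww_lt_nn hτ k
    omega

lemma not_PP_small (hτ : 3 < τ) (m : ℕ) (h2 : m < ww τ 0) : ¬ PP τ m := by
  rintro ⟨j, hj1, hj2⟩
  rcases Nat.eq_zero_or_pos j with h | h
  · subst h; omega
  · have h3 : nn τ (0+1) ≤ nn τ j := (nn_strictMono hτ).monotone (by omega)
    have h4 := nn_lt_ww hτ j
    have h5 := ww_lt_nn hτ 0
    omega

lemma PP_infinite (hτ : 3 < τ) : (Set.ofPred (PP τ)).Infinite := by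
  rw [Set.infinite_iff_exists_gt]
  intro a
  refine ⟨ww τ a, ⟨a, le_rfl, ww_lt_nn hτ a⟩, ?_⟩
  have h1 : a ≤ nn τ a := (nn_strictMono hτ).id_le a
  have h2 := nn_lt_ww hτ a
  omega

open Classical in
lemma count_PP (hτ : 3 < τ) (k : ℕ) : nn τ (k + 1) - ww τ k ≤ Nat.count (PP τ) (nn τ (k+1)) := by
  rw [Nat.count_eq_card_filter_range, ← Nat.card_Ico]
  apply Finset.card_le_card
  intro m hm
  rw [Finset.mem_Ico] at hm
  rw [Finset.mem_filter, Finset.mem_range]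
  exact ⟨hm.2, k, hm.1, hm.2⟩

open Classical in
lemma count_bound (hτ : 3 < τ) : ∀ m, PP τ m → m + 1 ≤ (⌈3 * τ⌉₊ + nn τ 1) * (Nat.count (PP τ) m + 1) := by
  rintro m ⟨k, hk1, hk2⟩
  rcases Nat.eq_zero_or_pos k with h0 | hpos
  · subst h0
    have : m + 1 ≤ nn τ 1 := hk2
    nlinarith [Nat.zero_le (Nat.count (PP τ) m), Nat.zero_le (⌈3 * τ⌉₊)]
  · obtain ⟨j, rfl⟩ : ∃ j, k = j + 1 := ⟨k - 1, by omega⟩
    have h1 : nn τ (j+1) ≤ m := le_trans (nn_lt_ww hτ (j+1)).le hk1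
    have h2 := Nat.count_monotone (PP τ) h1
    have h3 := count_PP hτ j
    have h4 : nn τ (j+1) ≤ Nat.count (PP τ) m + ww τ j := by omega
    have h5 := ww_lt hτ j
    have h6 := nn_succ_ge (τ := τ) j
    have h7 := nn_succ_lt hτ (j+1)
    have h8 : (nn τ (j+1) : ℝ) ≤ Nat.count (PP τ) m + ww τ j := by exact_mod_cast h4
    have h9 : (m:ℝ) + 1 ≤ nn τ (j+1+1) := by exact_mod_cast hk2
    have h10 : 3 * τ ≤ ⌈3 * τ⌉₊ := Nat.le_ceil _
    set c : ℝ := (Nat.count (PP τ) m : ℝ) with hc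
    have hc0 : 0 ≤ c := by positivity
    have h11 : (30:ℝ) ≤ nn τ (j+1) := by
      have a1 := nn_three hτ j
      have a2 := nn_ge hτ j
      have : 30 ≤ nn τ (j+1) := by omega
      exact_mod_cast this
    -- n/2 ≤ c + 3
    have h12 : (nn τ (j+1) : ℝ) / 2 ≤ c + 3 := by linarith
    have h13 : (nn τ (j+1) : ℝ) ≤ 3 * c := by linarith
    have h14 : (m:ℝ) + 1 ≤ 3 * τ * c + 1 := by nlinarith
    have h15 : (m:ℝ) + 1 ≤ ((⌈3 * τ⌉₊ + nn τ 1 : ℕ) : ℝ) * (c + 1) := by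
      push_cast
      have h16 : (0:ℝ) ≤ nn τ 1 := by positivity
      nlinarith
    have h17 : ((m + 1 : ℕ) : ℝ) ≤ (((⌈3 * τ⌉₊ + nn τ 1) * (Nat.count (PP τ) m + 1) : ℕ) : ℝ) := by
      push_cast; push_cast at h15; linarith
    exact_mod_cast h17

/-- the set of first coordinates has positive Hausdorff dimension -/
theorem dimH_XX (hτ : 3 < τ) : 0 < dimH (Set.range (XX (PP τ))) := by
  apply dimH_range_pos (PP τ) (PP_infinite hτ) (⌈3 * τ⌉₊ + nn τ 1) _ (count_bound hτ)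
  have := nn_ge hτ 1
  omega

lemma XX_nonneg (P : ℕ → Prop) (ω : ℕ → Fin 2) : 0 ≤ XX P ω := Real.ofDigits_nonneg _

/-- truncation -/
lemma XX_approx (hτ : 3 < τ) (ω : ℕ → Fin 2) (k : ℕ) :
    ∃ b : ℤ, |XX (PP τ) ω - b / 3 ^ (nn τ k)| ≤ ((3:ℝ) ^ (ww τ k))⁻¹ := by
  have h0 := Real.ofDigits_eq_sum_add_ofDigits (DD (PP τ) ω) (ww τ k)
  have hwn := (nn_lt_ww hτ k).le
  have h1 : ∑ i ∈ Finset.range (ww τ k), Real.ofDigitsTerm (DD (PP τ) ω) i = ∑ i ∈ Finset.range (nn τ k), Real.ofDigitsTerm (DD (PP τ) ω) i := by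
    symm
    apply Finset.sum_subset
    · intro x hx; simp at hx ⊢; omega
    · intro x hx hx2
      simp at hx hx2
      have := DD_of_not (PP τ) ω x (not_PP_window hτ k x hx2 hx)
      simp [Real.ofDigitsTerm, this]
  refine ⟨∑ i ∈ Finset.range (nn τ k), ((DD (PP τ) ω i : ℕ) : ℤ) * 3 ^ (nn τ k - (i + 1)), ?_⟩
  have h2 : ((∑ i ∈ Finset.range (nn τ k), ((DD (PP τ) ω i : ℕ) : ℤ) * 3 ^ (nn τ k - (i + 1)) : ℤ) : ℝ) / 3 ^ (nn τ k)
      = ∑ i ∈ Finset.range (nn τ k), Real.ofDigitsTerm (DD (PP τ) ω) i := by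
    push_cast
    rw [Finset.sum_div]
    apply Finset.sum_congr rfl
    intro i hi
    rw [Finset.mem_range] at hi
    have h3 : (3:ℝ) ^ (nn τ k) = 3 ^ (nn τ k - (i+1)) * 3 ^ (i+1) := by
      rw [← pow_add]; congr 1; omega
    rw [h3]
    simp only [Real.ofDigitsTerm]
    push_cast
    field_simp
  rw [h2]
  unfold XX
  rw [h0, h1, add_sub_cancel_left]
  have hu := Real.ofDigits_nonneg (fun i => DD (PP τ) ω (i + ww τ k))
  have hv := Real.ofDigits_le_one (fun i => DD (PP τ) ω (i + ww τ k))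
  rw [abs_of_nonneg (by positivity)]
  push_cast
  have hpos : (0:ℝ) < ((3:ℝ) ^ (ww τ k))⁻¹ := by positivity
  nlinarith

lemma XX_lt_one (hτ : 3 < τ) (ω : ℕ → Fin 2) : XX (PP τ) ω < 1 := by
  have h0 := Real.ofDigits_eq_sum_add_ofDigits (DD (PP τ) ω) (ww τ 0)
  have h1 : ∑ i ∈ Finset.range (ww τ 0), Real.ofDigitsTerm (DD (PP τ) ω) i = 0 := by
    apply Finset.sum_eq_zero
    intro i hi
    rw [Finset.mem_range] at hi
    simp [Real.ofDigitsTerm, DD_of_not (PP τ) ω i (not_PP_small hτ i hi)]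
  unfold XX
  rw [h0, h1, zero_add]
  have hv := Real.ofDigits_le_one (fun i => DD (PP τ) ω (i + ww τ 0))
  have hu := Real.ofDigits_nonneg (fun i => DD (PP τ) ω (i + ww τ 0))
  have h2 : 1 < ww τ 0 := by have := nn_lt_ww hτ 0; have := nn_ge hτ 0; omega
  push_cast
  have h3 : ((3:ℝ) ^ (ww τ 0))⁻¹ < 1 := by
    apply inv_lt_one_of_one_lt₀
    exact one_lt_pow₀ (by norm_num) (by omega)
  have hpos : (0:ℝ) < ((3:ℝ) ^ (ww τ 0))⁻¹ := by positivity
  nlinarith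

end Pool.Agent.N891.WG
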