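import Mathlib
import Pool.Agent.N891.WG.Gauss
import Pool.Agent.N891.WG.Win

open Finset Filter

namespace Pool.Agent.N891.WG

variable {τ : ℝ}

/-- upper bound for all N -/
theorem upper (hτ : 3 < τ) : ∃ C : ℝ, 0 < C ∧ ∀ N : ℕ, 2 ≤ N → ∀ α₀ α₁ : ℝ,
    ‖∑ n ∈ range N, e (α₀ + α₁ * n + beta τ * (n:ℝ) ^ 2)‖ ^ 2 ≤ C * ((N:ℝ) ^ (2 - 2 / τ) * Real.log N) := by
  have hτ0 : 0 < τ := by linarith
  set B : ℝ := 2 * 3 ^ 10 with hB
  refine ⟨24 * (4 * B + 7), by positivity, ?_⟩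
  intro N hN α₀ α₁
  have hN2 : (2:ℝ) ≤ N := by exact_mod_cast hN
  have hN0 : (0:ℝ) < N := by linarith
  set κ : ℝ := 2 - 2 / τ with hκ
  have hdiv : 2 / τ < 1 := by rw [div_lt_one hτ0]; linarith
  have hκ1 : 1 ≤ κ := by linarith
  have hdiv0 : 0 < 2 / τ := by positivity
  have hκ2 : κ ≤ 2 := by linarith
  set Y : ℝ := (N:ℝ) ^ κ with hY
  have hY1 : (N:ℝ) ≤ Y := by
    calc (N:ℝ) = (N:ℝ) ^ (1:ℝ) := (Real.rpow_one _).symm
      _ ≤ _ := Real.rpow_le_rpow_of_exponent_le (by linarith) hκ1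
  have hY2 : Y ≤ (N:ℝ)^2 := by
    calc Y ≤ (N:ℝ) ^ (2:ℝ) := Real.rpow_le_rpow_of_exponent_le (by linarith) hκ2
      _ = (N:ℝ)^2 := by norm_cast
  have hYpos : 0 < Y := by positivity
  set X : ℕ := ⌈Y⌉₊ with hX
  have hXpos : 0 < X := Nat.ceil_pos.mpr hYpos
  have hXY : Y ≤ X := Nat.le_ceil _
  have hXY2 : (X:ℝ) < Y + 1 := Nat.ceil_lt_add_one hYpos.le
  obtain ⟨r, hr1, hr2⟩ := Real.exists_rat_abs_sub_le_and_den_le (beta τ) hXpos
  set q : ℕ := r.den with hq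
  have hqpos : 0 < q := r.den_pos
  have hq' : (0:ℝ) < q := by exact_mod_cast hqpos
  have hq1 : (1:ℝ) ≤ q := by exact_mod_cast hqpos
  have hrr : (r:ℝ) = (r.num : ℝ) / q := by rw [Rat.cast_def]
  rw [hrr] at hr1
  have hqX : (q:ℝ) ≤ X := by exact_mod_cast hr2
  have hcop : IsCoprime r.num (q:ℤ) := by
    rw [Int.isCoprime_iff_gcd_eq_one]
    exact r.reduced
  have hb2 : |beta τ - r.num / q| ≤ 1 / (q:ℝ) ^ 2 := by
    refine le_trans hr1 ?_
    apply one_div_le_one_div_of_le (by positivity)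
    nlinarith
  have hmeas := beta_measure hτ r.num q hqpos
  have hchain : 1 / (B * (q:ℝ) ^ τ) ≤ 1 / (((X:ℝ) + 1) * q) := le_trans hmeas hr1
  have h1 : ((X:ℝ) + 1) * q ≤ B * (q:ℝ) ^ τ := by
    rwa [one_div_le_one_div (by positivity) (by positivity)] at hchain
  have h2 : Y ≤ B * (q:ℝ) ^ (τ - 1) := by
    have : (q:ℝ) ^ τ = (q:ℝ) ^ (τ - 1) * q := by
      rw [Real.rpow_sub_one hq'.ne']; field_simp
    rw [this, ← mul_assoc] at h1
    have := le_of_mul_le_mul_right h1 hq'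
    linarith
  -- N^{2/τ} ≤ B q
  have h3 : (N:ℝ) ^ (2 / τ) ≤ B * q := by
    have h4 : Y ^ (1 / (τ - 1)) ≤ (B * (q:ℝ) ^ (τ - 1)) ^ (1 / (τ - 1)) :=
      Real.rpow_le_rpow hYpos.le h2 (by apply div_nonneg <;> linarith)
    rw [Real.mul_rpow (by positivity) (by positivity)] at h4
    have h5 : ((q:ℝ) ^ (τ - 1)) ^ (1 / (τ - 1)) = q := by
      rw [← Real.rpow_mul hq'.le]
      have : (τ - 1) * (1 / (τ - 1)) = 1 := by
        have : τ - 1 ≠ 0 := by linarith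
        field_simp
      rw [this, Real.rpow_one]
    have h6 : Y ^ (1 / (τ - 1)) = (N:ℝ) ^ (2 / τ) := by
      rw [hY, ← Real.rpow_mul hN0.le]
      congr 1
      rw [hκ]
      have : τ - 1 ≠ 0 := by linarith
      field_simp
    have h7 : B ^ (1 / (τ - 1)) ≤ B := by
      calc B ^ (1 / (τ - 1)) ≤ B ^ (1:ℝ) := by
            apply Real.rpow_le_rpow_of_exponent_le (by rw [hB]; norm_num)
            rw [div_le_one (by linarith)]; linarith
        _ = B := Real.rpow_one _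
    rw [h5, h6] at h4
    calc _ ≤ _ := h4
      _ ≤ B * q := by gcongr
  have h8 : (N:ℝ)^2 = Y * (N:ℝ) ^ (2 / τ) := by
    rw [hY, ← Real.rpow_add hN0, hκ]
    have : 2 - 2 / τ + 2 / τ = (2:ℝ) := by ring
    rw [this]; norm_cast
  have h9 : (N:ℝ)^2 / q ≤ B * Y := by
    rw [div_le_iff₀ hq', h8]
    calc Y * (N:ℝ) ^ (2 / τ) ≤ Y * (B * q) := by gcongr
      _ = B * Y * q := by ring
  have hlogN : 0.69 ≤ Real.log N := by
    calc (0.69:ℝ) ≤ Real.log 2 := by have := Real.log_two_gt_d9; linarith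
      _ ≤ _ := Real.log_le_log (by norm_num) hN2
  have hlogq : Real.log (2 * q) ≤ 2 * Real.log 2 + 2 * Real.log N := by
    have hq4 : 2 * (q:ℝ) ≤ 2 ^ 2 * (N:ℝ)^2 := by
      have : (q:ℝ) ≤ 2 * Y := by linarith
      nlinarith
    calc Real.log (2 * q) ≤ Real.log (2 ^ 2 * (N:ℝ)^2) := Real.log_le_log (by positivity) hq4
      _ = _ := by rw [Real.log_mul (by norm_num) (by positivity), Real.log_pow, Real.log_pow]; push_cast; ring
  have hlog2 := Real.log_two_lt_d9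
  have hL : 1 + Real.log (2 * q) ≤ 6 * Real.log N := by linarith
  have hL1 : 1 ≤ 1 + Real.log (2 * q) := by
    have : 0 ≤ Real.log (2 * q) := Real.log_nonneg (by linarith)
    linarith
  have hw := weyl N α₀ α₁ (beta τ) r.num q hqpos hcop hb2
  calc _ ≤ _ := hw
    _ ≤ (4 * N / q + 1) * (4 * ((1 + Real.log (2 * q)) * (N + q))) := by
        gcongr
        nlinarith
    _ = 4 * (1 + Real.log (2 * q)) * (4 * ((N:ℝ)^2 / q) + 5 * N + q) := by
        field_simp; ring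
    _ ≤ 4 * (6 * Real.log N) * (4 * (B * Y) + 5 * Y + 2 * Y) := by
        gcongr
        linarith
    _ = 24 * (4 * B + 7) * (Y * Real.log N) := by ring

set_option maxHeartbeats 1000000 in
/-- lower bound for infinitely many N -/
theorem lower_inf (hτ : 3 < τ) (ω : ℕ → Fin 2) (N₀ : ℕ) : ∃ N : ℕ, N₀ ≤ N ∧
    (N:ℝ) ^ (1 - 1 / τ) / 52 ≤ ‖∑ n ∈ range N, e (XX (PP τ) ω * n + beta τ * (n:ℝ) ^ 2)‖ := by
  have hτ0 : 0 < τ := by linarith
  -- choose k large
  have htend : Tendsto (fun k : ℕ => ((3:ℝ) ^ k) ^ ((τ - 3) / 2)) atTop atTop := by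
    apply (tendsto_rpow_atTop (by linarith : 0 < (τ - 3) / 2)).comp
    exact tendsto_pow_atTop_atTop_of_one_lt (by norm_num)
  obtain ⟨k, hkN, hk26⟩ : ∃ k : ℕ, N₀ ≤ k ∧ (26:ℝ) ≤ ((3:ℝ) ^ (nn τ k)) ^ ((τ - 3) / 2) := by
    have h1 := (htend.comp (nn_strictMono hτ).tendsto_atTop).eventually_ge_atTop 26
    obtain ⟨k, hk⟩ := (h1.and (eventually_ge_atTop N₀)).exists
    exact ⟨k, hk.2, hk.1⟩
  set q : ℕ := 3 ^ (nn τ k) with hq
  have hqc : (q:ℝ) = 3 ^ (nn τ k) := by rw [hq]; push_cast; rfl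
  rw [← hqc] at hk26
  have hqpos : 0 < q := by positivity
  have hq0 : (0:ℝ) < q := by exact_mod_cast hqpos
  have hq1 : (1:ℝ) ≤ q := by exact_mod_cast hqpos
  have hsq : Real.sqrt q = (q:ℝ) ^ ((1:ℝ)/2) := Real.sqrt_eq_rpow _
  have hsq1 : 1 ≤ Real.sqrt q := by rw [← Real.sqrt_one]; exact Real.sqrt_le_sqrt hq1
  have hsqq : Real.sqrt q * Real.sqrt q = q := Real.mul_self_sqrt hq0.le
  set Z : ℝ := (q:ℝ) ^ (τ / 2 - 1) with hZ
  have hZpos : 0 < Z := by positivity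
  have hZ2 : Z = Real.sqrt q * (q:ℝ) ^ ((τ - 3)/2) := by
    rw [hsq, ← Real.rpow_add hq0, hZ]; congr 1; ring
  have hZ26 : 26 * Real.sqrt q ≤ Z := by
    rw [hZ2]; nlinarith
  set M : ℕ := ⌊Z / 13⌋₊ with hM
  have hM1 : (M:ℝ) ≤ Z / 13 := Nat.floor_le (by positivity)
  have hM2 : Z / 13 - 1 < M := Nat.sub_one_lt_floor _
  have hMs : Real.sqrt q ≤ M := by linarith
  have hM26 : Z / 26 ≤ M := by linarith
  have hM0 : (1:ℝ) ≤ M := by linarith
  refine ⟨M * q, ?_, ?_⟩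
  · have h1 : k ≤ nn τ k := (nn_strictMono hτ).id_le k
    have h2 : nn τ k < q := Nat.lt_pow_self (by norm_num)
    have h3 : 1 ≤ M := by exact_mod_cast hM0
    nlinarith
  · have hqτ : (q:ℝ) ^ (τ/2) = Z * q := by
      rw [hZ, Real.rpow_sub_one hq0.ne']; field_simp
    have hNle : (M:ℝ) * q ≤ (q:ℝ) ^ (τ/2) / 13 := by rw [hqτ]; nlinarith
    have hqτpos : 0 < (q:ℝ) ^ (τ/2) := by positivity
    obtain ⟨b, hb⟩ := XX_approx hτ ω k
    -- δ1
    have hw : ((3:ℝ) ^ (ww τ k))⁻¹ ≤ 1 / (9 * (q:ℝ) ^ (τ/2)) := by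
      rw [← one_div]
      apply one_div_le_one_div_of_le (by positivity)
      have h1 := ww_ge (τ := τ) k
      calc 9 * (q:ℝ) ^ (τ/2) = (3:ℝ) ^ (τ / 2 * nn τ k + 2) := by
            rw [Real.rpow_add (by norm_num), hqc, mul_comm (τ/2), Real.rpow_mul (by norm_num), Real.rpow_natCast]
            norm_num; ring
        _ ≤ (3:ℝ) ^ ((ww τ k : ℕ) : ℝ) := Real.rpow_le_rpow_of_exponent_le (by norm_num) h1
        _ = (3:ℝ) ^ (ww τ k) := Real.rpow_natCast _ _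
    have hd1 : |XX (PP τ) ω - b / q| * (M * q) ≤ 1 / 100 := by
      rw [hqc] at hNle hw ⊢
      calc |XX (PP τ) ω - b / 3 ^ (nn τ k)| * (M * 3 ^ (nn τ k)) ≤ (1 / (9 * ((3:ℝ) ^ (nn τ k)) ^ (τ/2))) * (((3:ℝ) ^ (nn τ k)) ^ (τ/2) / 13) := by
            apply mul_le_mul (le_trans hb hw) hNle (by positivity) (by positivity)
        _ = 1 / 117 := by
            rw [← hqc]
            generalize (q:ℝ) ^ (τ/2) = T at hqτpos
            field_simp; norm_num
        _ ≤ 1 / 100 := by norm_num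
    -- δ2
    have hd2' : |beta τ - (An τ k : ℝ) / q| ≤ (3/2) / ((q:ℝ) ^ (τ/2)) ^ 2 := by
      have h0 : 0 ≤ beta τ - (An τ k : ℝ) / q := by
        rw [hqc]; exact le_trans (by positivity) (beta_sub_ge hτ k)
      rw [abs_of_nonneg h0]
      have h1 := beta_sub_le hτ k
      rw [← hqc] at h1
      refine le_trans h1 ?_
      rw [inv_pow, ← div_eq_mul_inv]
      apply div_le_div_of_nonneg_left (by norm_num) (by positivity)
      calc ((q:ℝ) ^ (τ/2)) ^ 2 = (3:ℝ) ^ (τ * nn τ k) := by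
            rw [← Real.rpow_natCast, ← Real.rpow_mul hq0.le, hqc, ← Real.rpow_natCast, ← Real.rpow_mul (by norm_num)]
            congr 1; push_cast; ring
        _ ≤ (3:ℝ) ^ ((nn τ (k+1) : ℕ) : ℝ) := Real.rpow_le_rpow_of_exponent_le (by norm_num) (nn_succ_ge k)
        _ = (3:ℝ) ^ (nn τ (k+1)) := Real.rpow_natCast _ _
    have hd2 : |beta τ - ((An τ k : ℤ) : ℝ) / q| * (M * q) ^ 2 ≤ 1 / 100 := by
      have hcast : (((An τ k : ℕ) : ℤ) : ℝ) = (An τ k : ℝ) := by push_cast; rfl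
      rw [hcast]
      calc _ ≤ ((3/2) / ((q:ℝ) ^ (τ/2)) ^ 2) * ((q:ℝ) ^ (τ/2) / 13) ^ 2 := by
            apply mul_le_mul hd2' (pow_le_pow_left₀ (by positivity) hNle 2) (by positivity) (by positivity)
        _ = 3 / 338 := by
            generalize (q:ℝ) ^ (τ/2) = T at hqτpos
            field_simp; norm_num
        _ ≤ 1 / 100 := by norm_num
    have hodd : Odd q := by
      rw [hq]; exact Odd.pow (by decide)
    have hcop : IsCoprime ((An τ k : ℕ) : ℤ) (q:ℤ) := by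
      rw [Nat.isCoprime_iff_coprime]
      apply Nat.Coprime.symm
      rw [hq]
      apply Nat.Coprime.pow_left
      rw [Nat.Prime.coprime_iff_not_dvd Nat.prime_three]
      have := An_mod hτ k
      omega
    have hlow := lower q M hodd (An τ k : ℤ) b hcop (XX (PP τ) ω - b / q) (beta τ - ((An τ k : ℤ) : ℝ) / q) (1/100) hd1 hd2
    have e1 : (b:ℝ) / q + (XX (PP τ) ω - b / q) = XX (PP τ) ω := by ring
    have e2 : ((An τ k : ℤ) : ℝ) / q + (beta τ - ((An τ k : ℤ) : ℝ) / q) = beta τ := by ring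
    rw [e1, e2] at hlow
    refine le_trans ?_ hlow
    have hpi := Real.pi_lt_d2
    have hpi0 := Real.pi_pos
    -- RHS ≥ (1/2) sqrt q M ≥ q^{(τ-1)/2}/52
    have hR : (1/2) * Real.sqrt q * M ≤ Real.sqrt q * M * (1 - 4 * Real.pi * (1/100)) - 6 * Real.pi * (1/100) * q := by
      have h1 : (q:ℝ) ≤ Real.sqrt q * M := by nlinarith
      have h2 : 0 ≤ Real.sqrt q * M := by positivity
      nlinarith
    refine le_trans ?_ hR
    have hS : (q:ℝ) ^ ((τ-1)/2) / 52 ≤ (1/2) * Real.sqrt q * M := by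
      have : (q:ℝ) ^ ((τ-1)/2) = Real.sqrt q * Z := by
        rw [hsq, hZ, ← Real.rpow_add hq0]; congr 1; ring
      rw [this]; nlinarith
    refine le_trans ?_ hS
    apply div_le_div_of_nonneg_right _ (by norm_num)
    push_cast
    have hdt : 1 / τ < 1 := by rw [div_lt_one hτ0]; linarith
    calc ((M:ℝ) * q) ^ (1 - 1/τ) ≤ ((q:ℝ) ^ (τ/2)) ^ (1 - 1/τ) := by
          apply Real.rpow_le_rpow (by positivity) (by linarith) (by linarith)
      _ = (q:ℝ) ^ ((τ-1)/2) := by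
          rw [← Real.rpow_mul hq0.le]; congr 1; field_simp

/-- growth exponent of a sequence -/
noncomputable def growth (s : ℕ → ℂ) : EReal :=
  limsup (fun N : ℕ => ENNReal.log ‖s N‖ₑ / ((Real.log N : ℝ) : EReal)) atTop

lemma log_le_aux (z : ℂ) (N : ℕ) (hN : 2 ≤ N) (c : ℝ) (h : ‖z‖ ≤ (N:ℝ) ^ c) :
    ENNReal.log ‖z‖ₑ / ((Real.log N : ℝ) : EReal) ≤ (c : EReal) := by
  have hN0 : (0:ℝ) < N := by positivity
  have hL : 0 < Real.log N := Real.log_pos (by exact_mod_cast hN)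
  rw [EReal.div_le_iff_le_mul (by exact_mod_cast hL) (EReal.coe_ne_top _)]
  calc ENNReal.log ‖z‖ₑ ≤ ENNReal.log (ENNReal.ofReal ((N:ℝ) ^ c)) := by
        apply ENNReal.log_monotone
        rw [← ofReal_norm]
        exact ENNReal.ofReal_le_ofReal h
    _ = ((Real.log ((N:ℝ) ^ c) : ℝ) : EReal) := ENNReal.log_ofReal_of_pos (by positivity)
    _ = ((Real.log N : ℝ) : EReal) * (c : EReal) := by
        rw [Real.log_rpow hN0, ← EReal.coe_mul, mul_comm]

lemma le_log_aux (z : ℂ) (N : ℕ) (hN : 2 ≤ N) (c : ℝ) (h : (N:ℝ) ^ c ≤ ‖z‖) :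
    (c : EReal) ≤ ENNReal.log ‖z‖ₑ / ((Real.log N : ℝ) : EReal) := by
  have hN0 : (0:ℝ) < N := by positivity
  have hL : 0 < Real.log N := Real.log_pos (by exact_mod_cast hN)
  rw [EReal.le_div_iff_mul_le (by exact_mod_cast hL) (EReal.coe_ne_top _)]
  calc (c : EReal) * ((Real.log N : ℝ) : EReal) = ((Real.log ((N:ℝ) ^ c) : ℝ) : EReal) := by
        rw [Real.log_rpow hN0, ← EReal.coe_mul]
    _ = ENNReal.log (ENNReal.ofReal ((N:ℝ) ^ c)) := (ENNReal.log_ofReal_of_pos (by positivity)).symm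
    _ ≤ ENNReal.log ‖z‖ₑ := by
        apply ENNReal.log_monotone
        rw [← ofReal_norm]
        exact ENNReal.ofReal_le_ofReal h

theorem growth_eq (s : ℕ → ℂ) (α : ℝ)
    (hup : ∀ c : ℝ, α < c → ∀ᶠ N : ℕ in atTop, ‖s N‖ ≤ (N:ℝ) ^ c)
    (hlow : ∀ c : ℝ, c < α → ∃ᶠ N : ℕ in atTop, (N:ℝ) ^ c ≤ ‖s N‖) : growth s = (α : EReal) := by
  apply le_antisymm
  · rw [← EReal.le_of_forall_lt_iff_le]
    intro c hc
    have hc' : α < c := by exact_mod_cast hc
    unfold growth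
    apply Filter.limsup_le_of_le
    · exact isCobounded_le_of_bot
    · filter_upwards [hup c hc', eventually_ge_atTop 2] with N h1 h2
      exact log_le_aux _ N h2 c h1
  · rw [← EReal.ge_of_forall_gt_iff_ge]
    intro c hc
    have hc' : c < α := by exact_mod_cast hc
    unfold growth
    apply Filter.le_limsup_of_frequently_le
    · refine ((hlow c hc').and_eventually (eventually_ge_atTop 2)).mono ?_
      rintro N ⟨h1, h2⟩
      exact le_log_aux _ N h2 c h1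
    · exact isBounded_le_of_top

end Pool.Agent.N891.WG
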